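import Pool.Agent.Work.MP_02d86d_gt.Str.MainF
import Mathlib.MeasureTheory.Measure.SeparableMeasure

/-! The structure of the shape limits: Minkowski symmetrals and the main theorem. -/

set_option autoImplicit false

namespace MP_02d86d_gt

open MeasureTheory Set Filter Topology Metric

variable {n : ℕ}

/-- The iterated Minkowski symmetrals. -/
def seqMk (u : ℕ → EuclideanSpace ℝ (Fin n)) (M : Set (EuclideanSpace ℝ (Fin n))) :
    ℕ → Set (EuclideanSpace ℝ (Fin n))
  | 0 => M
  | k + 1 => mk (u k) (seqMk u M k)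

theorem seqMk_props {u : ℕ → EuclideanSpace ℝ (Fin n)} {M : Set (EuclideanSpace ℝ (Fin n))}
    (cM : IsCompact M) (vM : Convex ℝ M) (hM : M.Nonempty) {R : ℝ} (bM : M ⊆ closedBall 0 R)
    (k : ℕ) : IsCompact (seqMk u M k) ∧ Convex ℝ (seqMk u M k) ∧ (seqMk u M k).Nonempty ∧
      seqMk u M k ⊆ closedBall 0 R := by
  induction k with
  | zero => exact ⟨cM, vM, hM, bM⟩
  | succ k ih =>
    obtain ⟨h1, h2, h3, h4⟩ := ih
    exact mk_props h1 h2 h3 h4

theorem svec_seqMk {ρ : (EuclideanSpace ℝ (Fin n) ≃ₗᵢ[ℝ] EuclideanSpace ℝ (Fin n)) →*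
      (HH n ≃ₗᵢ[ℝ] HH n)}
    (hρ : ∀ g (f : EuclideanSpace ℝ (Fin n) → ℂ), MemLp f 2 (mu2 n) →
      MemLp (fun ξ => f (g.symm ξ)) 2 (mu2 n) ∧ ρ g (toH f) = toH fun ξ => f (g.symm ξ))
    (u : ℕ → EuclideanSpace ℝ (Fin n)) {M : Set (EuclideanSpace ℝ (Fin n))}
    (cM : IsCompact M) (vM : Convex ℝ M) (hM : M.Nonempty) {R : ℝ} (bM : M ⊆ closedBall 0 R)
    (j k : ℕ) :
    svec (seqMk (fun i => u (j + i)) M k) = Qs ρ (fun i => rho (u i)) j k (svec M) := by
  induction k with
  | zero => rfl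
  | succ k ih =>
    obtain ⟨h1, h2, h3, h4⟩ := seqMk_props (u := fun i => u (j + i)) cM vM hM bM k
    show svec (mk (u (j + k)) (seqMk (fun i => u (j + i)) M k)) =
      avg ρ (rho (u (j + k))) (Qs ρ (fun i => rho (u i)) j k (svec M))
    rw [svec_mk h1 h3, svec_image hρ h1 h3, ← ih]
    rfl

theorem iter_subset_seqMk {R : ℝ} {u : ℕ → EuclideanSpace ℝ (Fin n)}
    {K : ℕ → Set (EuclideanSpace ℝ (Fin n))} (h : Iter R u K) (i : ℕ) :
    K i ⊆ seqMk u (K 0) i := by
  induction i with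
  | zero => exact Subset.rfl
  | succ i ih =>
    rw [h.step i]
    exact st_subset_mk (h.hu i) (h.cpt i) (h.cvx i) ih

theorem volume_lie (A : EuclideanSpace ℝ (Fin n) ≃ₗᵢ[ℝ] EuclideanSpace ℝ (Fin n))
    (S : Set (EuclideanSpace ℝ (Fin n))) : volume (A '' S) = volume S := by
  rw [LinearIsometryEquiv.image_eq_preimage_symm]
  exact (LinearIsometryEquiv.measurePreserving A.symm).measure_preimage_equiv
    (f := A.symm.toMeasurableEquiv) S

/-- A limit of subsets is a subset of the limit. -/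
theorem hd_subset {A B : ℕ → Set (EuclideanSpace ℝ (Fin n))}
    {L M : Set (EuclideanSpace ℝ (Fin n))} {R : ℝ} (hA : ∀ i, (A i).Nonempty) (hL : L.Nonempty)
    (hM : M.Nonempty) (bA : ∀ i, A i ⊆ closedBall 0 R) (bB : ∀ i, B i ⊆ closedBall 0 R)
    (cL : IsCompact L) (cM : IsCompact M) (hAB : ∀ i, A i ⊆ B i)
    (h1 : Tendsto (fun i => hausdorffDist (A i) L) atTop (𝓝 0))
    (h2 : Tendsto (fun i => hausdorffDist (B i) M) atTop (𝓝 0)) : L ⊆ M := by
  intro x hx
  obtain ⟨y, hy, hyx⟩ := hd_exists hA hL (fun i => isBounded_closedBall.subset (bA i))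
    cL.isBounded h1 hx
  exact hd_mem (fun i => (hA i).mono (hAB i)) hM
    (fun i => isBounded_closedBall.subset (bB i)) cM.isBounded cM.isClosed h2
    (fun i => hAB i (hy i)) hyx

theorem rho_lie (A : EuclideanSpace ℝ (Fin n) ≃ₗᵢ[ℝ] EuclideanSpace ℝ (Fin n))
    {v : EuclideanSpace ℝ (Fin n)} (hv : ‖v‖ = 1) (x : EuclideanSpace ℝ (Fin n)) :
    A (rho v (A.symm x)) = rho (A v) x := by
  have hAv : ‖A v‖ = 1 := by rw [LinearIsometryEquiv.norm_map, hv]
  rw [rho_apply hv, rho_apply hAv, map_sub, map_smul, LinearIsometryEquiv.apply_symm_apply]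
  congr 2
  rw [← LinearIsometryEquiv.inner_map_map A (A.symm x) v,
    LinearIsometryEquiv.apply_symm_apply]

/-- The structure of the shape limits of iterated Steiner symmetrals. -/
theorem shape_structure {u : ℕ → EuclideanSpace ℝ (Fin n)} (hu : ∀ i, ‖u i‖ = 1) :
    ∃ (U : ℕ → (EuclideanSpace ℝ (Fin n) ≃ₗᵢ[ℝ] EuclideanSpace ℝ (Fin n)))
      (G : Subgroup (EuclideanSpace ℝ (Fin n) ≃ₗᵢ[ℝ] EuclideanSpace ℝ (Fin n))),
      (∀ (j : ℕ) (R : ℝ) (K : ℕ → Set (EuclideanSpace ℝ (Fin n))),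
        Iter R (fun i => u (j + i)) K →
        ∃ L : Set (EuclideanSpace ℝ (Fin n)), IsCompact L ∧ Convex ℝ L ∧ L.Nonempty ∧
          volume L = volume (K 0) ∧ (∀ g ∈ G, g '' L = L) ∧
          Tendsto (fun i => hausdorffDist (U (j + i) '' K i) L) atTop (𝓝 0)) ∧
      (∀ L : Set (EuclideanSpace ℝ (Fin n)), IsCompact L → Convex ℝ L → volume L ≠ 0 →
        (∀ g ∈ G, g '' L = L) → ∀ ε : ℝ, 0 < ε → ∃ j₀ : ℕ, ∀ j, j₀ ≤ j →
          ∀ (R : ℝ) (K : ℕ → Set (EuclideanSpace ℝ (Fin n))), Iter R (fun i => u (j + i)) K →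
            K 0 = (U j).symm '' L → ∀ L' : Set (EuclideanSpace ℝ (Fin n)), IsCompact L' →
            L'.Nonempty → Tendsto (fun i => hausdorffDist (U (j + i) '' K i) L') atTop (𝓝 0) →
            hausdorffDist L' L < ε) ∧
      (∀ (φ : ℕ → ℕ) (w : EuclideanSpace ℝ (Fin n)), StrictMono φ →
        Tendsto (fun i => U (φ i) (u (φ i))) atTop (𝓝 w) → rho w ∈ G) ∧
      (∀ (g : ℕ → (EuclideanSpace ℝ (Fin n) ≃ₗᵢ[ℝ] EuclideanSpace ℝ (Fin n)))
        (h : EuclideanSpace ℝ (Fin n) ≃ₗᵢ[ℝ] EuclideanSpace ℝ (Fin n)), (∀ m, g m ∈ G) →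
        (∀ x, Tendsto (fun m => g m x) atTop (𝓝 (h x))) → h ∈ G) := by
  obtain ⟨ρ, hρ, hcpt, hcont⟩ := exists_act n
  obtain ⟨C, hC0, hC⟩ := vec_st n
  haveI : Fact ((2 : ENNReal) ≠ ⊤) := ⟨by simp⟩
  haveI : TopologicalSpace.SeparableSpace (HH n) := inferInstance
  obtain ⟨U, G, B, P, hB, hPB, hP, hGP, hGx, hlim⟩ := structure_abs hcpt fun i => rho (u i)
  have hbdd : ∀ {A : Set (EuclideanSpace ℝ (Fin n))} {R : ℝ}
      (g : EuclideanSpace ℝ (Fin n) ≃ₗᵢ[ℝ] EuclideanSpace ℝ (Fin n)), A ⊆ closedBall 0 R →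
      g '' A ⊆ closedBall 0 R := fun g h => image_subset_ball h g
  refine ⟨U, G, fun j R K h => ?_, ?_, fun φ w hφ hw => ?_, fun g h hg hh => ?_⟩
  · -- convergence
    obtain ⟨ℓ, hPℓ, hℓ⟩ := vec_limit hρ hC0 hC hB hPB hP h
    have hv0 : volume (K 0) ≠ 0 := h.pos
    obtain ⟨L, cL, vL, nL, bL, gL, eL, hL⟩ := emb_tendsto vec
      (fun A => volume A = volume (K 0))
      (fun A L' hg hA nL' cA cL' vA vL' bA ht => by
        have h1 := tendsto_volume hA nL' cA cL' vA vL' bA ht
        simp only [hg] at h1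
        exact (tendsto_nhds_unique h1 tendsto_const_nhds))
      (fun A L' hA nL' cA cL' vA vL' bA ht => tendsto_vec hA nL' cA cL' vA vL' bA ht)
      (fun A L' cA cL' vA vL' _ _ gA gL' he => vec_inj cA cL' vA vL' (by rw [gA]; exact hv0)
        (by rw [gL']; exact hv0) he)
      (fun i => U (j + i) '' K i) (fun i => by rw [volume_lie, h.vol i])
      (fun i => (h.ne i).image _) (fun i => (h.cpt i).image (U (j + i)).continuous)
      (fun i => convex_lie (h.cvx i) _) (fun i => hbdd _ (h.sub i)) hℓ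
    refine ⟨L, cL, vL, nL, gL, fun g hg => ?_, hL⟩
    refine vec_inj (cL.image g.continuous) cL (convex_lie vL g) vL
      (by rw [volume_lie, gL]; exact hv0) (by rw [gL]; exact hv0) ?_
    rw [vec_image hρ cL, eL, ← hPℓ]
    exact (hGP g).1 hg ℓ
  · -- approximation
    intro L cL vL hv0 hGL ε hε
    have nL : L.Nonempty := by
      rw [nonempty_iff_ne_empty]
      rintro rfl
      exact hv0 measure_empty
    obtain ⟨R, bL⟩ := cL.isBounded.subset_closedBall 0
    -- the limits of the Minkowski symmetrals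
    have hmk : ∀ j : ℕ, ∃ M : Set (EuclideanSpace ℝ (Fin n)), IsCompact M ∧ Convex ℝ M ∧
        M.Nonempty ∧ M ⊆ closedBall 0 R ∧ svec M = B j (svec L) ∧
        Tendsto (fun i => hausdorffDist
          (U (j + i) '' seqMk (fun i => u (j + i)) ((U j).symm '' L) i) M) atTop (𝓝 0) := by
      intro j
      have c0 : IsCompact ((U j).symm '' L) := cL.image (U j).symm.continuous
      have v0 : Convex ℝ ((U j).symm '' L) := convex_lie vL _
      have n0 : ((U j).symm '' L).Nonempty := nL.image _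
      have b0 : (U j).symm '' L ⊆ closedBall 0 R := hbdd _ bL
      have hp := seqMk_props (u := fun i => u (j + i)) c0 v0 n0 b0
      have h1 : Tendsto (fun i => svec (U (j + i) ''
          seqMk (fun i => u (j + i)) ((U j).symm '' L) i)) atTop (𝓝 (B j (svec L))) := by
        refine (hB j (svec L)).congr fun i => ?_
        rw [svec_image hρ (hp i).1 (hp i).2.2.1, svec_seqMk hρ u c0 v0 n0 b0,
          svec_image hρ cL nL]
        rfl
      obtain ⟨M, cM, vM, nM, bM, -, eM, hM⟩ := emb_tendsto svec (fun _ => True)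
        (fun A L' _ _ _ _ _ _ _ _ _ => trivial)
        (fun A L' hA nL' cA cL' _ _ _ ht => tendsto_svec hA nL' cA cL' ht)
        (fun A L' cA cL' vA vL' nA nL' _ _ he => svec_inj cA cL' vA vL' nA nL' he)
        (fun i => U (j + i) '' seqMk (fun i => u (j + i)) ((U j).symm '' L) i)
        (fun _ => trivial) (fun i => (hp i).2.2.1.image _)
        (fun i => (hp i).1.image (U (j + i)).continuous) (fun i => convex_lie (hp i).2.1 _)
        (fun i => hbdd _ (hp i).2.2.2) h1
      exact ⟨M, cM, vM, nM, bM, eM, hM⟩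
    choose M cM vM nM bM eM hM using hmk
    have hsL : ∀ g ∈ G, ρ g (svec L) = svec L := fun g hg => by
      rw [← svec_image hρ cL nL, hGL g hg]
    have hML : Tendsto (fun j => hausdorffDist (M j) L) atTop (𝓝 0) := by
      have h1 : Tendsto (fun j => svec (M j)) atTop (𝓝 (svec L)) := by
        simp only [eM]
        exact hGx _ hsL
      obtain ⟨L₂, cL₂, vL₂, nL₂, bL₂, -, eL₂, hL₂⟩ := emb_tendsto svec (fun _ => True)
        (fun A L' _ _ _ _ _ _ _ _ _ => trivial)
        (fun A L' hA nL' cA cL' _ _ _ ht => tendsto_svec hA nL' cA cL' ht)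
        (fun A L' cA cL' vA vL' nA nL' _ _ he => svec_inj cA cL' vA vL' nA nL' he)
        M (fun _ => trivial) nM cM vM bM h1
      have h2 : L₂ = L := svec_inj cL₂ cL vL₂ vL nL₂ nL eL₂
      rw [← h2]
      exact hL₂
    by_contra! hcon
    choose! j hj R' K hK hK0 L' cL' nL' hL' hdist using hcon
    -- the limits are bodies inside `M`
    have hvK : ∀ k, volume (K k 0) = volume L := fun k => by rw [hK0, volume_lie]
    have hR' : ∀ k, K k 0 ⊆ closedBall 0 R := fun k => by
      rw [hK0]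
      exact hbdd _ bL
    have hseq : ∀ k i, K k i ⊆ seqMk (fun i => u (j k + i)) ((U (j k)).symm '' L) i := by
      intro k i
      have := iter_subset_seqMk (hK k) i
      rwa [hK0] at this
    have hball : ∀ k i, U (j k + i) '' K k i ⊆ closedBall 0 R := by
      intro k i
      have hp := seqMk_props (u := fun i => u (j k + i)) (cL.image (U (j k)).symm.continuous)
        (convex_lie vL _) (nL.image _) (hbdd _ bL) i
      exact hbdd _ ((hseq k i).trans hp.2.2.2)
    have hsub : ∀ k, L' k ⊆ M (j k) := by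
      intro k
      refine hd_subset (R := R) (fun i => ((hK k).ne i).image _) (nL' k) (nM _)
        (fun i => hball k i) (fun i => ?_) (cL' k) (cM _) (fun i => image_mono (hseq k i))
        (hL' k) (hM (j k))
      have hp := seqMk_props (u := fun i => u (j k + i)) (cL.image (U (j k)).symm.continuous)
        (convex_lie vL _) (nL.image _) (hbdd _ bL) i
      exact hbdd _ hp.2.2.2
    have hvL' : ∀ k, Convex ℝ (L' k) ∧ volume (L' k) = volume L := by
      intro k
      obtain ⟨L₃, cL₃, vL₃, nL₃, eL₃, -, hL₃⟩ : ∃ L₃ : Set (EuclideanSpace ℝ (Fin n)),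
          IsCompact L₃ ∧ Convex ℝ L₃ ∧ L₃.Nonempty ∧ volume L₃ = volume (K k 0) ∧ True ∧
          Tendsto (fun i => hausdorffDist (U (j k + i) '' K k i) L₃) atTop (𝓝 0) := by
        obtain ⟨ℓ, hPℓ, hℓ⟩ := vec_limit hρ hC0 hC hB hPB hP (hK k)
        have hv1 : volume (K k 0) ≠ 0 := (hK k).pos
        obtain ⟨L₃, cL₃, vL₃, nL₃, bL₃, gL₃, eL₃, hL₃⟩ := emb_tendsto vec
          (fun A => volume A = volume (K k 0))
          (fun A L' hg hA nL' cA cL' vA vL' bA ht => by
            have h1 := tendsto_volume hA nL' cA cL' vA vL' bA ht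
            simp only [hg] at h1
            exact (tendsto_nhds_unique h1 tendsto_const_nhds))
          (fun A L' hA nL' cA cL' vA vL' bA ht => tendsto_vec hA nL' cA cL' vA vL' bA ht)
          (fun A L' cA cL' vA vL' _ _ gA gL' he => vec_inj cA cL' vA vL'
            (by rw [gA]; exact hv1) (by rw [gL']; exact hv1) he)
          (fun i => U (j k + i) '' K k i) (fun i => by rw [volume_lie, (hK k).vol i])
          (fun i => ((hK k).ne i).image _)
          (fun i => ((hK k).cpt i).image (U (j k + i)).continuous)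
          (fun i => convex_lie ((hK k).cvx i) _) (fun i => hball k i) hℓ
        exact ⟨L₃, cL₃, vL₃, nL₃, gL₃, trivial, hL₃⟩
      have h1 : L' k = L₃ := by
        refine Subset.antisymm ?_ ?_
        · exact hd_subset (R := R) (fun i => ((hK k).ne i).image _) (nL' k) nL₃
            (fun i => hball k i) (fun i => hball k i) (cL' k) cL₃ (fun i => Subset.rfl)
            (hL' k) hL₃
        · exact hd_subset (R := R) (fun i => ((hK k).ne i).image _) nL₃ (nL' k)
            (fun i => hball k i) (fun i => hball k i) cL₃ (cL' k) (fun i => Subset.rfl)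
            hL₃ (hL' k)
      rw [h1]
      exact ⟨vL₃, eL₃.trans (hvK k)⟩
    have hjt : Tendsto j atTop atTop := tendsto_atTop_mono hj tendsto_id
    obtain ⟨L₀, ψ, hψ, cL₀, vL₀, nL₀, bL₀, hL₀⟩ := blaschke (R := R) L' cL'
      (fun k => (hvL' k).1) nL' fun k => (hsub k).trans (bM _)
    have h1 : Tendsto (fun k => hausdorffDist (M (j (ψ k))) L) atTop (𝓝 0) :=
      hML.comp (hjt.comp hψ.tendsto_atTop)
    have h2 : L₀ ⊆ L := hd_subset (fun k => nL' (ψ k)) nL₀ nL
      (fun k => (hsub (ψ k)).trans (bM _)) (fun k => bM _) cL₀ cL (fun k => hsub (ψ k)) hL₀ h1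
    have h3 : volume L₀ = volume L := by
      have h4 := tendsto_volume (fun k => nL' (ψ k)) nL₀ (fun k => cL' (ψ k)) cL₀
        (fun k => (hvL' (ψ k)).1) vL₀ (fun k => (hsub (ψ k)).trans (bM _)) hL₀
      simp only [(hvL' _).2] at h4
      exact tendsto_nhds_unique h4 tendsto_const_nhds |>.symm ▸ rfl
    have h4 : L₀ = L := eq_of_subset_volume cL₀ vL (interior_nonempty_of_volume vL hv0) h2 h3
    rw [h4] at hL₀
    have h5 : ε ≤ 0 := ge_of_tendsto' hL₀ fun k => hdist (ψ k)
    linarith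
  · -- the reflections
    have hw1 : ‖w‖ = 1 := by
      have h1 : Tendsto (fun i => ‖U (φ i) (u (φ i))‖) atTop (𝓝 ‖w‖) := hw.norm
      have h2 : ∀ i, ‖U (φ i) (u (φ i))‖ = 1 := fun i => by
        rw [LinearIsometryEquiv.norm_map, hu]
      simp only [h2] at h1
      exact (tendsto_nhds_unique h1 tendsto_const_nhds)
    refine hlim φ (rho w) hφ fun v => ?_
    refine hcont (fun m => U (φ m) * rho (u (φ m)) * (U (φ m))⁻¹) (rho w) (fun x => ?_) v
    have h1 : ∀ m, (U (φ m) * rho (u (φ m)) * (U (φ m))⁻¹) x =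
        x - (2 * inner ℝ x (U (φ m) (u (φ m)))) • U (φ m) (u (φ m)) := by
      intro m
      have h2 : (U (φ m) * rho (u (φ m)) * (U (φ m))⁻¹) x =
        U (φ m) (rho (u (φ m)) ((U (φ m)).symm x)) := rfl
      rw [h2, rho_lie _ (hu _), rho_apply (by rw [LinearIsometryEquiv.norm_map, hu])]
    simp only [h1]
    rw [rho_apply hw1]
    have h3 : Tendsto (fun m => inner ℝ x (U (φ m) (u (φ m)))) atTop (𝓝 (inner ℝ x w)) :=
      (continuous_const.inner continuous_id).continuousAt.tendsto.comp hw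
    exact tendsto_const_nhds.sub ((h3.const_mul 2).smul hw)
  · -- the group is closed
    rw [hGP]
    intro x
    have h1 := hcont g h hh (P x)
    have h2 : ∀ m, ρ (g m) (P x) = P x := fun m => (hGP (g m)).1 (hg m) x
    simp only [h2] at h1
    exact (tendsto_nhds_unique h1 tendsto_const_nhds)

end MP_02d86d_gt
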