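import Pool.Agent.Work.MP_02d86d_gt.Str.Basic

/-! Common centring of random products. -/

set_option autoImplicit false

namespace MP_02d86d_gt

open Set Filter Topology Metric

variable {Γ : Type*} [Group Γ] {H : Type*} [NormedAddCommGroup H] [InnerProductSpace ℝ H]

theorem avg_step (ρ : Γ →* (H ≃ₗᵢ[ℝ] H)) (r g : Γ) (z y : H) :
    ‖avg ρ r z - ρ g y‖ ^ 2 = (‖z - ρ g y‖ ^ 2 + ‖z - ρ (r⁻¹ * g) y‖ ^ 2) / 2 -
      ‖z - ρ r z‖ ^ 2 / 4 := by
  have h1 : ‖z - ρ (r⁻¹ * g) y‖ = ‖ρ r z - ρ g y‖ := by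
    rw [← LinearIsometryEquiv.norm_map (ρ r) (z - ρ (r⁻¹ * g) y), map_sub]
    congr 2
    have h2 : ρ r (ρ (r⁻¹ * g) y) = ρ (r * (r⁻¹ * g)) y := by
      rw [map_mul ρ r, LinearIsometryEquiv.coe_mul, Function.comp_apply]
    rw [h2]
    congr 2
    group
  have h3 := parallelogram_law_with_norm ℝ (z - ρ g y) (ρ r z - ρ g y)
  have h4 : (z - ρ g y) - (ρ r z - ρ g y) = z - ρ r z := by abel
  have h5 : (z - ρ g y) + (ρ r z - ρ g y) = (2 : ℝ) • (avg ρ r z - ρ g y) := by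
    unfold avg
    module
  rw [h4, h5, norm_smul, Real.norm_ofNat] at h3
  rw [h1]
  linarith

/-- The weighted distance. -/
noncomputable def dw (ρ : Γ →* (H ≃ₗᵢ[ℝ] H)) (w : ℕ → ℝ) (g : Γ) (z y : ℕ → H) : ℝ :=
  ∑' k, w k * ‖z k - ρ g (y k)‖ ^ 2

/-- The weighted distance from the orbit. -/
noncomputable def orbw (ρ : Γ →* (H ≃ₗᵢ[ℝ] H)) (w : ℕ → ℝ) (z y : ℕ → H) : ℝ :=
  ⨅ g, dw ρ w g z y

theorem dw_nonneg (ρ : Γ →* (H ≃ₗᵢ[ℝ] H)) {w : ℕ → ℝ} (hw : ∀ k, 0 ≤ w k) (g : Γ)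
    (z y : ℕ → H) : 0 ≤ dw ρ w g z y :=
  tsum_nonneg fun k => mul_nonneg (hw k) (sq_nonneg _)

theorem orbw_le (ρ : Γ →* (H ≃ₗᵢ[ℝ] H)) {w : ℕ → ℝ} (hw : ∀ k, 0 ≤ w k) (g : Γ)
    (z y : ℕ → H) : orbw ρ w z y ≤ dw ρ w g z y :=
  ciInf_le ⟨0, by rintro _ ⟨g, rfl⟩; exact dw_nonneg ρ hw g z y⟩ g

theorem dw_bound (ρ : Γ →* (H ≃ₗᵢ[ℝ] H)) {b : ℕ → ℝ} {z y : ℕ → H} (hz : ∀ k, ‖z k‖ ≤ b k)
    (hy : ∀ k, ‖y k‖ ≤ b k) (g : Γ) (k : ℕ) : ‖z k - ρ g (y k)‖ ^ 2 ≤ 4 * b k ^ 2 := by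
  have h1 : ‖z k - ρ g (y k)‖ ≤ b k + b k := by
    refine (norm_sub_le _ _).trans (add_le_add (hz k) ?_)
    rw [LinearIsometryEquiv.norm_map]
    exact hy k
  have h2 := pow_le_pow_left₀ (norm_nonneg _) h1 2
  linarith [h2, show (b k + b k) ^ 2 = 4 * b k ^ 2 by ring]

theorem dw_summable (ρ : Γ →* (H ≃ₗᵢ[ℝ] H)) {w b : ℕ → ℝ} (hw : ∀ k, 0 ≤ w k)
    (hs : Summable fun k => w k * b k ^ 2) {z y : ℕ → H} (hz : ∀ k, ‖z k‖ ≤ b k)
    (hy : ∀ k, ‖y k‖ ≤ b k) (g : Γ) : Summable fun k => w k * ‖z k - ρ g (y k)‖ ^ 2 := by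
  refine Summable.of_nonneg_of_le (fun k => mul_nonneg (hw k) (sq_nonneg _)) (fun k => ?_)
    (hs.mul_left 4)
  have := mul_le_mul_of_nonneg_left (dw_bound ρ hz hy g k) (hw k)
  linarith [this, show w k * (4 * b k ^ 2) = 4 * (w k * b k ^ 2) by ring]

theorem exists_center [CompleteSpace H] [TopologicalSpace.SeparableSpace H]
    {ρ : Γ →* (H ≃ₗᵢ[ℝ] H)} (hρ : SotCpt ρ) (r : ℕ → Γ) :
    ∃ U : ℕ → Γ, ∀ (N : ℕ) (x : H), ∃ y : H,
      Tendsto (fun k => ρ (U (N + k)) (Qs ρ r N k x)) atTop (𝓝 y) := by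
  -- test vectors `x k` with starts `s k`
  obtain ⟨x, s, hxs⟩ : ∃ (x : ℕ → H) (s : ℕ → ℕ), ∀ N l, ∃ k, s k = N ∧
      x k = TopologicalSpace.denseSeq H l :=
    ⟨fun k => TopologicalSpace.denseSeq H (Nat.unpair k).2, fun k => (Nat.unpair k).1,
      fun N l => ⟨Nat.pair N l, by simp, by simp⟩⟩
  obtain ⟨w, hw, hws⟩ : ∃ w : ℕ → ℝ, (∀ k, 0 < w k) ∧ Summable fun k => w k * ‖x k‖ ^ 2 := by
    refine ⟨fun k => (1 / 2) ^ k / (1 + ‖x k‖ ^ 2), fun k => by positivity, ?_⟩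
    refine Summable.of_nonneg_of_le (fun k => by positivity) (fun k => ?_)
      summable_geometric_two
    rw [div_mul_eq_mul_div, div_le_iff₀ (by positivity)]
    have h1 : (0 : ℝ) ≤ (1 / 2) ^ k := by positivity
    have h2 : ‖x k‖ ^ 2 ≤ 1 + ‖x k‖ ^ 2 := by linarith
    exact mul_le_mul_of_nonneg_left h2 h1
  have hw0 : ∀ k, 0 ≤ w k := fun k => (hw k).le
  -- the orbits
  obtain ⟨z, hz1, hz2⟩ : ∃ z : ℕ → ℕ → H, (∀ k m, z (s k + m) k = Qs ρ r (s k) m (x k)) ∧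
      ∀ k i, i < s k → z i k = 0 := by
    refine ⟨fun i k => if s k ≤ i then Qs ρ r (s k) (i - s k) (x k) else 0,
      fun k m => ?_, fun k i hi => ?_⟩
    · simp
    · exact if_neg (not_le.2 hi)
  have hzn : ∀ i k, ‖z i k‖ ≤ ‖x k‖ := by
    intro i k
    rcases lt_or_ge i (s k) with h | h
    · rw [hz2 k i h, norm_zero]
      exact norm_nonneg _
    · obtain ⟨m, rfl⟩ := Nat.exists_eq_add_of_le h
      rw [hz1]
      exact norm_Qs_le ρ r _ _ _
  -- one step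
  have hstep : ∀ i k, s k ≤ i → z (i + 1) k = avg ρ (r i) (z i k) := by
    intro i k h
    obtain ⟨m, rfl⟩ := Nat.exists_eq_add_of_le h
    rw [show s k + m + 1 = s k + (m + 1) by ring, hz1, hz1]
    rfl
  have hjump : ∀ i k, s k = i + 1 → z (i + 1) k = x k := by
    intro i k h
    have := hz1 k 0
    rw [add_zero, h] at this
    exact this
  -- the potential
  obtain ⟨pot, hpot⟩ : ∃ pot : ℕ → ℕ → ℝ, ∀ i k, pot i k =
      ‖z i k‖ ^ 2 + if s k ≤ i then 0 else 2 * ‖x k‖ ^ 2 := ⟨_, fun i k => rfl⟩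
  have hpot0 : ∀ i k, 0 ≤ pot i k := fun i k => by
    rw [hpot]
    split_ifs <;> positivity
  have hpot3 : ∀ i k, pot i k ≤ 3 * ‖x k‖ ^ 2 := fun i k => by
    rw [hpot]
    have h1 := pow_le_pow_left₀ (norm_nonneg _) (hzn i k) 2
    have h2 := sq_nonneg ‖x k‖
    split_ifs <;> linarith
  have hpots : ∀ i, Summable fun k => w k * pot i k := fun i => by
    refine Summable.of_nonneg_of_le (fun k => mul_nonneg (hw0 k) (hpot0 i k)) (fun k => ?_)
      (hws.mul_left 3)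
    have := mul_le_mul_of_nonneg_left (hpot3 i k) (hw0 k)
    linarith [this, show w k * (3 * ‖x k‖ ^ 2) = 3 * (w k * ‖x k‖ ^ 2) by ring]
  have hdecr : ∀ i k, pot (i + 1) k ≤ pot i k := by
    intro i k
    rw [hpot, hpot]
    rcases lt_trichotomy (s k) (i + 1) with h | h | h
    · rw [if_pos (by omega), if_pos (by omega), hstep i k (by omega)]
      have := norm_avg_le ρ (r i) (z i k)
      have := pow_le_pow_left₀ (norm_nonneg _) this 2
      linarith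
    · rw [if_pos (by omega), if_neg (by omega), hjump i k h, hz2 k i (by omega), norm_zero]
      have := sq_nonneg ‖x k‖
      linarith
    · rw [if_neg (by omega), if_neg (by omega), hz2 k i (by omega),
        hz2 k (i + 1) (by omega)]
  have hineq : ∀ (i k : ℕ) (g : Γ) (y : H), ‖y‖ ≤ ‖x k‖ →
      (‖z i k - ρ g y‖ ^ 2 + ‖z i k - ρ ((r i)⁻¹ * g) y‖ ^ 2) / 2 + pot (i + 1) k ≤
        ‖z (i + 1) k - ρ g y‖ ^ 2 + pot i k := by
    intro i k g y hy
    rw [hpot, hpot]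
    rcases lt_trichotomy (s k) (i + 1) with h | h | h
    · rw [if_pos (by omega), if_pos (by omega), hstep i k (by omega), avg_step, norm_avg_sq]
      linarith
    · rw [if_pos (by omega), if_neg (by omega), hjump i k h, hz2 k i (by omega), norm_zero,
        zero_sub, zero_sub, norm_neg, norm_neg, LinearIsometryEquiv.norm_map,
        LinearIsometryEquiv.norm_map]
      have h1 := pow_le_pow_left₀ (norm_nonneg _) hy 2
      have h2 := sq_nonneg ‖x k - ρ g y‖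
      linarith
    · rw [if_neg (by omega), if_neg (by omega), hz2 k i (by omega),
        hz2 k (i + 1) (by omega), norm_zero, zero_sub, zero_sub, norm_neg, norm_neg,
        LinearIsometryEquiv.norm_map, LinearIsometryEquiv.norm_map]
      linarith
  obtain ⟨Pot, hPot⟩ : ∃ Pot : ℕ → ℝ, ∀ i, Pot i = ∑' k, w k * pot i k := ⟨_, fun i => rfl⟩
  have hPot0 : ∀ i, 0 ≤ Pot i := fun i => by
    rw [hPot]
    exact tsum_nonneg fun k => mul_nonneg (hw0 k) (hpot0 i k)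
  have hPotA : Antitone Pot := antitone_nat_of_succ_le fun i => by
    rw [hPot, hPot]
    exact (hpots (i + 1)).tsum_le_tsum
      (fun k => mul_le_mul_of_nonneg_left (hdecr i k) (hw0 k)) (hpots i)
  -- monotonicity
  have hmono : ∀ y : ℕ → H, (∀ k, ‖y k‖ ≤ ‖x k‖) →
      Monotone fun i => orbw ρ w (z i) y - Pot i := by
    intro y hy
    refine monotone_nat_of_le_succ fun i => ?_
    have h1 : ∀ g, orbw ρ w (z i) y + Pot (i + 1) - Pot i ≤ dw ρ w g (z (i + 1)) y := by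
      intro g
      have hs1 := dw_summable ρ hw0 hws (hzn i) hy g
      have hs2 := dw_summable ρ hw0 hws (hzn i) hy ((r i)⁻¹ * g)
      have hs3 := dw_summable ρ hw0 hws (hzn (i + 1)) hy g
      have h2 := orbw_le ρ hw0 g (z i) y
      have h3 := orbw_le ρ hw0 ((r i)⁻¹ * g) (z i) y
      have h4 : (dw ρ w g (z i) y + dw ρ w ((r i)⁻¹ * g) (z i) y) / 2 + Pot (i + 1) ≤
          dw ρ w g (z (i + 1)) y + Pot i := by
        rw [hPot, hPot]
        unfold dw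
        rw [← hs1.tsum_add hs2, ← tsum_div_const,
          ← ((hs1.add hs2).div_const 2).tsum_add (hpots (i + 1)), ← hs3.tsum_add (hpots i)]
        refine (((hs1.add hs2).div_const 2).add (hpots (i + 1))).tsum_le_tsum (fun k => ?_)
          (hs3.add (hpots i))
        have h5 := mul_le_mul_of_nonneg_left (hineq i k g (y k) (hy k)) (hw0 k)
        linarith [h5, show w k * ((‖z i k - ρ g (y k)‖ ^ 2 +
          ‖z i k - ρ ((r i)⁻¹ * g) (y k)‖ ^ 2) / 2 + pot (i + 1) k) =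
          (w k * ‖z i k - ρ g (y k)‖ ^ 2 + w k * ‖z i k - ρ ((r i)⁻¹ * g) (y k)‖ ^ 2) / 2 +
            w k * pot (i + 1) k by ring, show w k * (‖z (i + 1) k - ρ g (y k)‖ ^ 2 +
            pot i k) = w k * ‖z (i + 1) k - ρ g (y k)‖ ^ 2 + w k * pot i k by ring]
      linarith
    have h2 : orbw ρ w (z i) y + Pot (i + 1) - Pot i ≤ orbw ρ w (z (i + 1)) y := le_ciInf h1
    show orbw ρ w (z i) y - Pot i ≤ orbw ρ w (z (i + 1)) y - Pot (i + 1)
    linarith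
  have hconv : ∀ y : ℕ → H, (∀ k, ‖y k‖ ≤ ‖x k‖) →
      ∃ e, Tendsto (fun i => orbw ρ w (z i) y) atTop (𝓝 e) := by
    intro y hy
    have h1 : BddAbove (range fun i => orbw ρ w (z i) y - Pot i) := by
      refine ⟨∑' k, 4 * (w k * ‖x k‖ ^ 2), ?_⟩
      rintro _ ⟨i, rfl⟩
      have h2 := orbw_le ρ hw0 1 (z i) y
      have h3 : dw ρ w 1 (z i) y ≤ ∑' k, 4 * (w k * ‖x k‖ ^ 2) := by
        refine (dw_summable ρ hw0 hws (hzn i) hy 1).tsum_le_tsum (fun k => ?_)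
          (hws.mul_left 4)
        have := mul_le_mul_of_nonneg_left (dw_bound ρ (hzn i) hy 1 k) (hw0 k)
        linarith [this, show w k * (4 * ‖x k‖ ^ 2) = 4 * (w k * ‖x k‖ ^ 2) by ring]
      have h4 := hPot0 i
      show orbw ρ w (z i) y - Pot i ≤ _
      linarith
    have h2 := tendsto_atTop_ciSup (hmono y hy) h1
    have h3 : BddBelow (range Pot) := ⟨0, by rintro _ ⟨i, rfl⟩; exact hPot0 i⟩
    have h4 := tendsto_atTop_ciInf hPotA h3
    refine ⟨_, (h2.add h4).congr fun i => ?_⟩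
    show orbw ρ w (z i) y - Pot i + Pot i = orbw ρ w (z i) y
    ring
  -- a limit point
  have hC : ∀ k, ∃ C : Set H, IsCompact C ∧ ∀ i, z i k ∈ C := by
    intro k
    obtain ⟨C, hC, hCc, hCg⟩ := exists_compact hρ (x k)
    refine ⟨C ∪ {0}, hC.union isCompact_singleton, fun i => ?_⟩
    rcases lt_or_ge i (s k) with h | h
    · exact Or.inr (hz2 k i h)
    · obtain ⟨m, rfl⟩ := Nat.exists_eq_add_of_le h
      left
      rw [hz1]
      obtain ⟨q, g, c, hc0, hc1, hc⟩ := Qs_comb ρ r (s k) m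
      rw [hc]
      exact hCc.sum_mem (fun j _ => hc0 j) hc1 fun j _ => hCg (g j)
  choose C hC hzC using hC
  obtain ⟨y, -, φ, hφ, hφy⟩ := (isCompact_univ_pi hC).tendsto_subseq (x := z)
    fun i k _ => hzC k i
  have hyk : ∀ k, Tendsto (fun m => z (φ m) k) atTop (𝓝 (y k)) := fun k =>
    (tendsto_pi_nhds.1 hφy) k
  have hyn : ∀ k, ‖y k‖ ≤ ‖x k‖ := fun k =>
    le_of_tendsto' (hyk k).norm fun m => hzn (φ m) k
  obtain ⟨e, he⟩ := hconv y hyn
  have he0 : e ≤ 0 := by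
    have h1 : Tendsto (fun m => dw ρ w 1 (z (φ m)) y) atTop (𝓝 (∑' _ : ℕ, (0 : ℝ))) := by
      unfold dw
      refine tendsto_tsum_of_dominated_convergence (bound := fun k => 4 * (w k * ‖x k‖ ^ 2))
        (hws.mul_left 4) (fun k => ?_) (Eventually.of_forall fun m k => ?_)
      · have h2 : Tendsto (fun m => z (φ m) k - ρ 1 (y k)) atTop (𝓝 (y k - y k)) := by
          have h3 : ρ 1 (y k) = y k := by
            rw [map_one, LinearIsometryEquiv.coe_one, id_eq]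
          rw [h3]
          exact (hyk k).sub_const _
        rw [sub_self] at h2
        have h4 := (h2.norm.pow 2).const_mul (w k)
        simpa using h4
      · rw [Real.norm_of_nonneg (mul_nonneg (hw0 k) (sq_nonneg _))]
        have := mul_le_mul_of_nonneg_left (dw_bound ρ (hzn (φ m)) hyn 1 k) (hw0 k)
        linarith [this, show w k * (4 * ‖x k‖ ^ 2) = 4 * (w k * ‖x k‖ ^ 2) by ring]
    rw [tsum_zero] at h1
    exact le_of_tendsto_of_tendsto' (he.comp hφ.tendsto_atTop) h1 fun m =>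
      orbw_le ρ hw0 1 (z (φ m)) y
  -- nearly optimal elements
  have hg : ∀ i : ℕ, ∃ g, dw ρ w g (z i) y < orbw ρ w (z i) y + 1 / ((i : ℝ) + 1) := fun i =>
    exists_lt_of_ciInf_lt (by
      show orbw ρ w (z i) y < orbw ρ w (z i) y + 1 / ((i : ℝ) + 1)
      have : (0 : ℝ) < 1 / ((i : ℝ) + 1) := by positivity
      linarith)
  choose g hg using hg
  have hdw : Tendsto (fun i => dw ρ w (g i) (z i) y) atTop (𝓝 0) := by
    have h1 : Tendsto (fun i : ℕ => orbw ρ w (z i) y + 1 / ((i : ℝ) + 1)) atTop (𝓝 (e + 0)) :=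
      he.add tendsto_one_div_add_atTop_nhds_zero_nat
    have h2 : e = 0 := le_antisymm he0 (ge_of_tendsto' he fun i =>
      le_ciInf fun g => dw_nonneg ρ hw0 g (z i) y)
    rw [h2, add_zero] at h1
    exact squeeze_zero (fun i => dw_nonneg ρ hw0 _ _ _) (fun i => (hg i).le) h1
  have hk : ∀ k, Tendsto (fun i => ρ (g i)⁻¹ (z i k)) atTop (𝓝 (y k)) := by
    intro k
    rw [tendsto_iff_norm_sub_tendsto_zero]
    have h1 : Tendsto (fun i => √((w k)⁻¹ * dw ρ w (g i) (z i) y)) atTop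
        (𝓝 √((w k)⁻¹ * 0)) := (hdw.const_mul (w k)⁻¹).sqrt
    rw [mul_zero, Real.sqrt_zero] at h1
    refine squeeze_zero (fun i => norm_nonneg _) (fun i => ?_) h1
    have h2 : w k * ‖z i k - ρ (g i) (y k)‖ ^ 2 ≤ dw ρ w (g i) (z i) y :=
      (dw_summable ρ hw0 hws (hzn i) hyn (g i)).le_tsum k
        fun j _ => mul_nonneg (hw0 j) (sq_nonneg _)
    have h3 : ‖ρ (g i)⁻¹ (z i k) - y k‖ = ‖z i k - ρ (g i) (y k)‖ := by
      rw [← LinearIsometryEquiv.norm_map (ρ (g i)) (ρ (g i)⁻¹ (z i k) - y k), map_sub,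
        map_inv, LinearIsometryEquiv.coe_inv, LinearIsometryEquiv.apply_symm_apply]
    rw [h3]
    refine Real.le_sqrt_of_sq_le ?_
    rw [← div_eq_inv_mul, le_div_iff₀ (hw k), mul_comm]
    exact h2
  -- extension to all vectors
  refine ⟨fun i => (g i)⁻¹, fun N v => ?_⟩
  refine cauchySeq_tendsto_of_complete (Metric.cauchySeq_iff'.2 fun ε hε => ?_)
  obtain ⟨_, hv, ⟨l, rfl⟩⟩ := Metric.dense_iff.1 (TopologicalSpace.denseRange_denseSeq H) v
    (ε / 4) (by positivity)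
  obtain ⟨k, hkN, hkl⟩ := hxs N l
  rw [← hkl] at hv
  have hv' : ‖v - x k‖ < ε / 4 := by
    rw [← dist_eq_norm, dist_comm]
    exact hv
  have h1 : ∀ᶠ m in atTop, ‖ρ (g (N + m))⁻¹ (Qs ρ r N m (x k)) - y k‖ < ε / 4 := by
    have h2 : Tendsto (fun m => ρ (g (N + m))⁻¹ (z (N + m) k)) atTop (𝓝 (y k)) :=
      (hk k).comp (tendsto_atTop_mono (fun m => Nat.le_add_left m N) tendsto_id)
    have h3 := (tendsto_iff_norm_sub_tendsto_zero.1 h2).eventually
      (gt_mem_nhds (by positivity : (0 : ℝ) < ε / 4))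
    filter_upwards [h3] with m hm
    have h4 := hz1 k m
    rw [hkN] at h4
    rwa [h4] at hm
  have h2 : ∀ᶠ m in atTop, ‖ρ (g (N + m))⁻¹ (Qs ρ r N m v) - y k‖ < ε / 2 := by
    filter_upwards [h1] with m hm
    have h3 : ‖ρ (g (N + m))⁻¹ (Qs ρ r N m v) - ρ (g (N + m))⁻¹ (Qs ρ r N m (x k))‖ < ε / 4 := by
      rw [← map_sub, LinearIsometryEquiv.norm_map, ← Qs_sub]
      exact (norm_Qs_le ρ r N m _).trans_lt hv'
    calc ‖ρ (g (N + m))⁻¹ (Qs ρ r N m v) - y k‖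
        = ‖(ρ (g (N + m))⁻¹ (Qs ρ r N m v) - ρ (g (N + m))⁻¹ (Qs ρ r N m (x k))) +
          (ρ (g (N + m))⁻¹ (Qs ρ r N m (x k)) - y k)‖ := by congr 1; abel
      _ ≤ _ := norm_add_le _ _
      _ < ε / 2 := by linarith
  obtain ⟨M, hM⟩ := eventually_atTop.1 h2
  refine ⟨M, fun m hm => ?_⟩
  have h3 := hM m hm
  have h4 := hM M le_rfl
  rw [dist_eq_norm]
  calc ‖ρ (g (N + m))⁻¹ (Qs ρ r N m v) - ρ (g (N + M))⁻¹ (Qs ρ r N M v)‖
      = ‖(ρ (g (N + m))⁻¹ (Qs ρ r N m v) - y k) -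
        (ρ (g (N + M))⁻¹ (Qs ρ r N M v) - y k)‖ := by congr 1; abel
    _ ≤ _ := norm_sub_le _ _
    _ < ε := by linarith

end MP_02d86d_gt
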