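import Pool.Agent.Work.MP_02d86d_gt.Str.Basic

/-! Cluster operators. -/

set_option autoImplicit false

namespace MP_02d86d_gt

open MeasureTheory Set Filter Topology Metric

section Abs

variable {Γ : Type*} [Group Γ] {H : Type*} [NormedAddCommGroup H] [InnerProductSpace ℝ H]

/-- the centred products -/
noncomputable def AA (ρ : Γ →* (H ≃ₗᵢ[ℝ] H)) (r U : ℕ → Γ) (N k : ℕ) (x : H) : H :=
  ρ (U (N + k)) (Qs ρ r N k (ρ (U N)⁻¹ x))

theorem AA_lin (ρ : Γ →* (H ≃ₗᵢ[ℝ] H)) (r U : ℕ → Γ) (N k : ℕ) (a : ℝ) (x y : H) :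
    AA ρ r U N k (a • x + y) = a • AA ρ r U N k x + AA ρ r U N k y := by
  unfold AA
  rw [map_add, map_smul, Qs_lin, map_add, map_smul]

theorem AA_sub (ρ : Γ →* (H ≃ₗᵢ[ℝ] H)) (r U : ℕ → Γ) (N k : ℕ) (x y : H) :
    AA ρ r U N k (x - y) = AA ρ r U N k x - AA ρ r U N k y := by
  unfold AA
  rw [map_sub, Qs_sub, map_sub]

theorem norm_AA_le (ρ : Γ →* (H ≃ₗᵢ[ℝ] H)) (r U : ℕ → Γ) (N k : ℕ) (x : H) :
    ‖AA ρ r U N k x‖ ≤ ‖x‖ := by
  unfold AA
  rw [LinearIsometryEquiv.norm_map]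
  refine (norm_Qs_le ρ r N k _).trans ?_
  rw [LinearIsometryEquiv.norm_map]

theorem AA_add (ρ : Γ →* (H ≃ₗᵢ[ℝ] H)) (r U : ℕ → Γ) (N k l : ℕ) (x : H) :
    AA ρ r U N (k + l) x = AA ρ r U (N + k) l (AA ρ r U N k x) := by
  unfold AA
  have h : ρ (U (N + k))⁻¹ (ρ (U (N + k)) (Qs ρ r N k (ρ (U N)⁻¹ x)))
      = Qs ρ r N k (ρ (U N)⁻¹ x) := by
    change (ρ (U (N + k))⁻¹ * ρ (U (N + k))) (Qs ρ r N k (ρ (U N)⁻¹ x)) = _
    rw [← map_mul, inv_mul_cancel, map_one]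
    rfl
  rw [h, Qs_add_time, add_assoc]

theorem AA_comb (ρ : Γ →* (H ≃ₗᵢ[ℝ] H)) (r U : ℕ → Γ) (N k : ℕ) :
    ∃ (m : ℕ) (g : Fin m → Γ) (c : Fin m → ℝ), (∀ j, 0 ≤ c j) ∧ ∑ j, c j = 1 ∧
      ∀ x : H, AA ρ r U N k x = ∑ j, c j • ρ (g j) x := by
  obtain ⟨m, g, c, hc, hs, h⟩ := Qs_comb (H := H) ρ r N k
  refine ⟨m, fun j => U (N + k) * g j * (U N)⁻¹, c, hc, hs, fun x => ?_⟩
  unfold AA
  rw [h, map_sum]
  refine Finset.sum_congr rfl fun j _ => ?_
  rw [map_smul, map_mul, map_mul]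
  rfl

/-- cluster operators -/
theorem exists_cluster [CompleteSpace H] [TopologicalSpace.SeparableSpace H]
    {ρ : Γ →* (H ≃ₗᵢ[ℝ] H)} (hρ : SotCpt ρ) (r : ℕ → Γ) (U : ℕ → Γ) (B : ℕ → H → H)
    (hB : ∀ N x, Tendsto (fun k => ρ (U (N + k)) (Qs ρ r N k (ρ (U N)⁻¹ x))) atTop
      (𝓝 (B N x))) (ψ : ℕ → ℕ) (hψ : StrictMono ψ) :
    ∃ (φ : ℕ → ℕ) (P : H → H), StrictMono φ ∧
      (∀ x, Tendsto (fun m => B (ψ (φ m)) x) atTop (𝓝 (P x))) ∧
      (∀ N x, P (B N x) = B N x) ∧ (∀ x, P (P x) = P x) ∧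
      (∀ (a : ℝ) (x y : H), P (a • x + y) = a • P x + P y) ∧ (∀ x, ‖P x‖ ≤ ‖x‖) ∧
      (∀ (m : ℕ) (x : Fin m → H) (ε : ℝ), 0 < ε → ∃ (q : ℕ) (g : Fin q → Γ) (c : Fin q → ℝ),
        (∀ j, 0 ≤ c j) ∧ ∑ j, c j = 1 ∧ ∀ l, ‖P (x l) - ∑ j, c j • ρ (g j) (x l)‖ ≤ ε) := by
  have hB' : ∀ N x, Tendsto (fun k => AA ρ r U N k x) atTop (𝓝 (B N x)) := hB
  -- the operators `B N`
  have Blin : ∀ N (a : ℝ) (x y : H), B N (a • x + y) = a • B N x + B N y := by
    intro N a x y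
    have h1 := hB' N (a • x + y)
    have h2 : Tendsto (fun k => AA ρ r U N k (a • x + y)) atTop (𝓝 (a • B N x + B N y)) := by
      have h3 := ((hB' N x).const_smul a).add (hB' N y)
      refine h3.congr fun k => ?_
      rw [AA_lin]
    exact tendsto_nhds_unique h1 h2
  have Ble : ∀ N x, ‖B N x‖ ≤ ‖x‖ := fun N x =>
    le_of_tendsto (hB' N x).norm (Eventually.of_forall fun k => norm_AA_le ρ r U N k x)
  have Blip : ∀ N x y, ‖B N x - B N y‖ ≤ ‖x - y‖ := by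
    intro N x y
    have h1 : B N x - B N y = B N (x - y) := by
      have h2 := Blin N (-1) y x
      have h3 : (-1 : ℝ) • y + x = x - y := by
        rw [neg_one_smul]
        abel
      rw [h3, neg_one_smul] at h2
      rw [h2]
      abel
    rw [h1]
    exact Ble N _
  have Bcoc : ∀ N k x, B N x = B (N + k) (AA ρ r U N k x) := by
    intro N k x
    have h1 : Tendsto (fun l => AA ρ r U N (k + l) x) atTop (𝓝 (B N x)) := by
      have := hB' N x
      rw [← tendsto_add_atTop_iff_nat k] at this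
      refine this.congr fun l => ?_
      rw [add_comm l k]
    have h2 : Tendsto (fun l => AA ρ r U (N + k) l (AA ρ r U N k x)) atTop
        (𝓝 (B (N + k) (AA ρ r U N k x))) := hB' _ _
    refine tendsto_nhds_unique (h1.congr fun l => ?_) h2
    rw [AA_add]
  -- compactness
  have hcpt : ∀ x : H, ∃ C : Set H, IsCompact C ∧ ∀ N, B N x ∈ C := by
    intro x
    obtain ⟨C, hC, hconv, hmem⟩ := exists_compact hρ x
    refine ⟨C, hC, fun N => ?_⟩
    refine hC.isClosed.mem_of_tendsto (hB' N x) (Eventually.of_forall fun k => ?_)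
    obtain ⟨m, g, c, hc, hs, h⟩ := AA_comb (H := H) ρ r U N k
    rw [h]
    exact hconv.sum_mem (fun j _ => hc j) hs fun j _ => hmem _
  choose C hC hCm using hcpt
  let d : ℕ → H := TopologicalSpace.denseSeq H
  have hd : DenseRange d := TopologicalSpace.denseRange_denseSeq H
  obtain ⟨a, -, φ, hφ, hlim⟩ := (isCompact_univ_pi fun k => hC (d k)).tendsto_subseq
    (x := fun m k => B (ψ m) (d k)) (fun m => fun k _ => hCm (d k) (ψ m))
  rw [tendsto_pi_nhds] at hlim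
  have hcau : ∀ x, CauchySeq fun m => B (ψ (φ m)) x := by
    intro x
    rw [Metric.cauchySeq_iff']
    intro ε hε
    obtain ⟨k, hk⟩ := hd.exists_dist_lt x (show (0 : ℝ) < ε / 4 by positivity)
    obtain ⟨N, hN⟩ := Metric.cauchySeq_iff'.1 (hlim k).cauchySeq (ε / 4) (by positivity)
    refine ⟨N, fun m hm => ?_⟩
    have h1 : dist (B (ψ (φ m)) (d k)) (B (ψ (φ N)) (d k)) < ε / 4 := hN m hm
    have h2 : dist (B (ψ (φ m)) x) (B (ψ (φ m)) (d k)) ≤ dist x (d k) := by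
      rw [dist_eq_norm, dist_eq_norm]
      exact Blip _ _ _
    have h3 : dist (B (ψ (φ N)) (d k)) (B (ψ (φ N)) x) ≤ dist x (d k) := by
      rw [dist_comm, dist_eq_norm, dist_eq_norm]
      exact Blip _ _ _
    calc dist (B (ψ (φ m)) x) (B (ψ (φ N)) x)
        ≤ dist (B (ψ (φ m)) x) (B (ψ (φ m)) (d k)) + dist (B (ψ (φ m)) (d k)) (B (ψ (φ N)) (d k))
          + dist (B (ψ (φ N)) (d k)) (B (ψ (φ N)) x) := dist_triangle4 _ _ _ _
      _ < ε := by linarith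
  choose P hP using fun x => cauchySeq_tendsto_of_complete (hcau x)
  have Plip : ∀ x y, ‖P x - P y‖ ≤ ‖x - y‖ := fun x y =>
    le_of_tendsto ((hP x).sub (hP y)).norm (Eventually.of_forall fun m => Blip _ x y)
  have hψφ : Tendsto (fun m => ψ (φ m)) atTop atTop :=
    hψ.tendsto_atTop.comp hφ.tendsto_atTop
  have PB : ∀ N x, P (B N x) = B N x := by
    intro N x
    have h1 : Tendsto (fun m => B (ψ (φ m)) (B N x)) atTop (𝓝 (P (B N x))) := hP _
    have h2 : Tendsto (fun m => B (ψ (φ m)) (B N x)) atTop (𝓝 (B N x)) := by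
      rw [tendsto_iff_norm_sub_tendsto_zero]
      have h3 : Tendsto (fun m => ‖AA ρ r U N (ψ (φ m) - N) x - B N x‖) atTop (𝓝 0) := by
        have h4 := (tendsto_iff_norm_sub_tendsto_zero.1 (hB' N x))
        exact h4.comp ((tendsto_sub_atTop_nat N).comp hψφ)
      refine squeeze_zero' (Eventually.of_forall fun m => norm_nonneg _) ?_ h3
      filter_upwards [hψφ.eventually_ge_atTop N] with m hm
      have h5 := Bcoc N (ψ (φ m) - N) x
      rw [Nat.add_sub_cancel' hm] at h5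
      calc ‖B (ψ (φ m)) (B N x) - B N x‖
          = ‖B (ψ (φ m)) (B N x) - B (ψ (φ m)) (AA ρ r U N (ψ (φ m) - N) x)‖ := by rw [← h5]
        _ ≤ ‖B N x - AA ρ r U N (ψ (φ m) - N) x‖ := Blip _ _ _
        _ = _ := norm_sub_rev _ _
    exact tendsto_nhds_unique h1 h2
  refine ⟨φ, P, hφ, hP, PB, ?_, ?_, ?_, ?_⟩
  · intro x
    have h1 : Tendsto (fun m => P (B (ψ (φ m)) x)) atTop (𝓝 (P (P x))) := by
      rw [tendsto_iff_norm_sub_tendsto_zero]
      refine squeeze_zero (fun m => norm_nonneg _) (fun m => Plip _ _)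
        (tendsto_iff_norm_sub_tendsto_zero.1 (hP x))
    refine tendsto_nhds_unique (h1.congr fun m => ?_) (hP x)
    exact PB _ _
  · intro a x y
    refine tendsto_nhds_unique (hP (a • x + y)) ?_
    refine (((hP x).const_smul a).add (hP y)).congr fun m => ?_
    rw [Blin]
  · intro x
    exact le_of_tendsto (hP x).norm (Eventually.of_forall fun m => Ble _ x)
  · intro m x ε hε
    have h1 : ∀ᶠ i in atTop, ∀ l, ‖P (x l) - B (ψ (φ i)) (x l)‖ ≤ ε / 2 := by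
      rw [eventually_all]
      intro l
      have h2 := (tendsto_iff_norm_sub_tendsto_zero.1 (hP (x l))).eventually_lt_const
        (show (0 : ℝ) < ε / 2 by positivity)
      filter_upwards [h2] with i hi
      rw [norm_sub_rev]
      exact hi.le
    obtain ⟨i, hi⟩ := h1.exists
    have h3 : ∀ᶠ k in atTop, ∀ l, ‖B (ψ (φ i)) (x l) - AA ρ r U (ψ (φ i)) k (x l)‖ ≤ ε / 2 := by
      rw [eventually_all]
      intro l
      have h2 := (tendsto_iff_norm_sub_tendsto_zero.1 (hB' (ψ (φ i)) (x l))).eventually_lt_const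
        (show (0 : ℝ) < ε / 2 by positivity)
      filter_upwards [h2] with k hk
      rw [norm_sub_rev]
      exact hk.le
    obtain ⟨k, hk⟩ := h3.exists
    obtain ⟨q, g, c, hc, hs, h⟩ := AA_comb (H := H) ρ r U (ψ (φ i)) k
    refine ⟨q, g, c, hc, hs, fun l => ?_⟩
    rw [← h]
    calc ‖P (x l) - AA ρ r U (ψ (φ i)) k (x l)‖
        ≤ ‖P (x l) - B (ψ (φ i)) (x l)‖ + ‖B (ψ (φ i)) (x l) - AA ρ r U (ψ (φ i)) k (x l)‖ := by
          have := norm_add_le (P (x l) - B (ψ (φ i)) (x l))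
            (B (ψ (φ i)) (x l) - AA ρ r U (ψ (φ i)) k (x l))
          simpa using this
      _ ≤ ε / 2 + ε / 2 := add_le_add (hi l) (hk l)
      _ = ε := by ring

end Abs

end MP_02d86d_gt
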