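import Pool.Agent.Work.MP_02d86d_gt.Str.DefH

/-! Vectors fixed by the stabilizer of the range of an averaging projection. -/

set_option autoImplicit false

namespace MP_02d86d_gt

open MeasureTheory Set Filter Topology Metric

section Abs

variable {Γ : Type*} [Group Γ] {H : Type*} [NormedAddCommGroup H] [InnerProductSpace ℝ H]

theorem fix_continuous {P : H → H}
    (hlin : ∀ (a : ℝ) (x y : H), P (a • x + y) = a • P x + P y) (hle : ∀ x, ‖P x‖ ≤ ‖x‖) :
    Continuous P := by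
  have hsub : ∀ x y, P x - P y = P (x - y) := by
    intro x y
    have h := hlin (-1) y x
    have e1 : (-1 : ℝ) • y + x = x - y := by rw [neg_one_smul]; abel
    have e2 : (-1 : ℝ) • P y + P x = P x - P y := by rw [neg_one_smul]; abel
    rw [e1, e2] at h
    exact h.symm
  refine LipschitzWith.continuous (K := 1) (LipschitzWith.of_dist_le_mul fun x y => ?_)
  rw [dist_eq_norm, dist_eq_norm, hsub, NNReal.coe_one, one_mul]
  exact hle _

/-- near fixing of finitely many vectors of the range forces near fixing of `y` -/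
theorem fix_finite [TopologicalSpace.SeparableSpace H]
    {ρ : Γ →* (H ≃ₗᵢ[ℝ] H)} (hρ : SotCpt ρ) {P : H → H}
    (hlin : ∀ (a : ℝ) (x y : H), P (a • x + y) = a • P x + P y) (hle : ∀ x, ‖P x‖ ≤ ‖x‖)
    {y : H} (hy : ∀ g : Γ, (∀ x, ρ g (P x) = P x) → ρ g y = y) {ε : ℝ} (hε : 0 < ε) :
    ∃ (m : ℕ) (u : ℕ → H) (η : ℝ), 0 < η ∧
      ∀ g : Γ, (∀ l < m, ‖ρ g (P (u l)) - P (u l)‖ < η) → ‖ρ g y - y‖ < ε := by
  have : Nonempty H := ⟨0⟩
  by_contra hcon
  push Not at hcon
  have h1 := fun m : ℕ => hcon m (TopologicalSpace.denseSeq H) (1 / ((m : ℝ) + 1)) (by positivity)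
  choose g hg1 hg2 using h1
  obtain ⟨φ, h, hφ, hl⟩ := hρ g
  have hPc := fix_continuous hlin hle
  have hfix : ∀ k, ρ h (P (TopologicalSpace.denseSeq H k)) = P (TopologicalSpace.denseSeq H k) := by
    intro k
    have h2 := hl (P (TopologicalSpace.denseSeq H k))
    refine tendsto_nhds_unique h2 ?_
    rw [tendsto_iff_norm_sub_tendsto_zero]
    have h3 : Tendsto (fun m : ℕ => 1 / (((φ m : ℕ) : ℝ) + 1)) atTop (𝓝 0) :=
      tendsto_one_div_add_atTop_nhds_zero_nat.comp hφ.tendsto_atTop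
    refine squeeze_zero' (Eventually.of_forall fun m => norm_nonneg _) ?_ h3
    filter_upwards [eventually_gt_atTop k] with m hm
    exact (hg1 (φ m) k (lt_of_lt_of_le hm (hφ.id_le m))).le
  have hall : ∀ x, ρ h (P x) = P x := by
    have hc : IsClosed {x : H | ρ h (P x) = P x} :=
      isClosed_eq ((ρ h).continuous.comp hPc) hPc
    have hd : Dense {x : H | ρ h (P x) = P x} :=
      (TopologicalSpace.denseRange_denseSeq H).mono (by rintro _ ⟨k, rfl⟩; exact hfix k)
    intro x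
    have h4 : {x : H | ρ h (P x) = P x} = univ := by
      rw [← hc.closure_eq]
      exact hd.closure_eq
    have h5 : x ∈ {x : H | ρ h (P x) = P x} := h4 ▸ mem_univ x
    exact h5
  have hhy := hy h hall
  have h6 : Tendsto (fun m => ‖ρ (g (φ m)) y - y‖) atTop (𝓝 ‖ρ h y - y‖) :=
    ((hl y).sub_const y).norm
  rw [hhy, sub_self, norm_zero] at h6
  exact absurd (ge_of_tendsto h6 (Eventually.of_forall fun m => hg2 (φ m))) (not_le.2 hε)

/-- vectors fixed by the stabilizer of the range are in the range -/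
theorem fix_of_stab [CompleteSpace H] [TopologicalSpace.SeparableSpace H]
    {ρ : Γ →* (H ≃ₗᵢ[ℝ] H)} (hρ : SotCpt ρ) {P : H → H} (hPP : ∀ x, P (P x) = P x)
    (hlin : ∀ (a : ℝ) (x y : H), P (a • x + y) = a • P x + P y) (hle : ∀ x, ‖P x‖ ≤ ‖x‖)
    (hcomb : ∀ (m : ℕ) (x : Fin m → H) (ε : ℝ), 0 < ε →
      ∃ (q : ℕ) (g : Fin q → Γ) (c : Fin q → ℝ), (∀ j, 0 ≤ c j) ∧ ∑ j, c j = 1 ∧
        ∀ l, ‖P (x l) - ∑ j, c j • ρ (g j) (x l)‖ ≤ ε)
    {y : H} (hy : ∀ g : Γ, (∀ x, ρ g (P x) = P x) → ρ g y = y) : P y = y := by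
  have key : ∀ ε : ℝ, 0 < ε → ‖P y - y‖ ≤ 2 * ε := by
    intro ε hε
    obtain ⟨m, u, η, hη, hfin⟩ := fix_finite hρ hlin hle hy hε
    let z : ℕ → H := fun l => P (u l)
    let A : ℝ := 1 + 2 * ‖y‖ / η ^ 2 * (2 * ∑ l ∈ Finset.range m, ‖z l‖)
    have hA : 0 < A := by
      have : 0 ≤ 2 * ‖y‖ / η ^ 2 * (2 * ∑ l ∈ Finset.range m, ‖z l‖) := by positivity
      change 0 < 1 + 2 * ‖y‖ / η ^ 2 * (2 * ∑ l ∈ Finset.range m, ‖z l‖)
      linarith
    have hε' : 0 < ε / A := div_pos hε hA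
    obtain ⟨q, g, c, hc0, hc1, happ⟩ := hcomb (m + 1)
      (fun l => if (l : ℕ) < m then z l else y) (ε / A) hε'
    have happz : ∀ l < m, ‖z l - ∑ j, c j • ρ (g j) (z l)‖ ≤ ε / A := by
      intro l hl
      have h := happ ⟨l, by omega⟩
      simp only [hl, if_true] at h
      have hz : P (z l) = z l := hPP _
      rwa [hz] at h
    have happy : ‖P y - ∑ j, c j • ρ (g j) y‖ ≤ ε / A := by
      have h := happ ⟨m, by omega⟩
      simpa using h
    have hsq : ∀ l < m, ∑ j, c j * ‖ρ (g j) (z l) - z l‖ ^ 2 ≤ 2 * (ε / A) * ‖z l‖ := by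
      intro l hl
      have h1 : ∑ j, c j * ‖ρ (g j) (z l) - z l‖ ^ 2
          = 2 * inner ℝ (z l - ∑ j, c j • ρ (g j) (z l)) (z l) := by
        rw [inner_sub_left, sum_inner, real_inner_self_eq_norm_sq]
        have h2 : ∀ j, c j * ‖ρ (g j) (z l) - z l‖ ^ 2
            = c j * (2 * ‖z l‖ ^ 2) - 2 * inner ℝ (c j • ρ (g j) (z l)) (z l) := by
          intro j
          rw [norm_sub_sq_real, (ρ (g j)).norm_map, inner_smul_left]
          simp only [conj_trivial]
          ring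
        rw [Finset.sum_congr rfl fun j _ => h2 j, Finset.sum_sub_distrib, ← Finset.sum_mul, hc1,
          ← Finset.mul_sum]
        ring
      rw [h1]
      have h3 : inner ℝ (z l - ∑ j, c j • ρ (g j) (z l)) (z l)
          ≤ ‖z l - ∑ j, c j • ρ (g j) (z l)‖ * ‖z l‖ := real_inner_le_norm _ _
      have h4 := mul_le_mul_of_nonneg_right (happz l hl) (norm_nonneg (z l))
      linarith
    have hpt : ∀ j, ‖ρ (g j) y - y‖
        ≤ ε + 2 * ‖y‖ / η ^ 2 * ∑ l ∈ Finset.range m, ‖ρ (g j) (z l) - z l‖ ^ 2 := by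
      intro j
      have hs0 : 0 ≤ 2 * ‖y‖ / η ^ 2 * ∑ l ∈ Finset.range m, ‖ρ (g j) (z l) - z l‖ ^ 2 := by
        positivity
      by_cases hgood : ∀ l < m, ‖ρ (g j) (z l) - z l‖ < η
      · have := hfin (g j) hgood
        linarith
      · push Not at hgood
        obtain ⟨l, hl, hlη⟩ := hgood
        have h5 : η ^ 2 ≤ ∑ l ∈ Finset.range m, ‖ρ (g j) (z l) - z l‖ ^ 2 := by
          have h6 := Finset.single_le_sum (f := fun l => ‖ρ (g j) (z l) - z l‖ ^ 2)
            (fun i _ => sq_nonneg _) (Finset.mem_range.2 hl)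
          refine le_trans ?_ h6
          exact pow_le_pow_left₀ hη.le hlη 2
        have h7 : ‖ρ (g j) y - y‖ ≤ 2 * ‖y‖ := by
          refine (norm_sub_le _ _).trans ?_
          rw [(ρ (g j)).norm_map]
          linarith
        have h8 : 2 * ‖y‖ ≤ 2 * ‖y‖ / η ^ 2 * ∑ l ∈ Finset.range m, ‖ρ (g j) (z l) - z l‖ ^ 2 := by
          have h9 : 2 * ‖y‖ = 2 * ‖y‖ / η ^ 2 * η ^ 2 := by
            field_simp
          calc 2 * ‖y‖ = 2 * ‖y‖ / η ^ 2 * η ^ 2 := h9
            _ ≤ _ := by gcongr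
        linarith
    have hsum : ∑ j, c j * ‖ρ (g j) y - y‖
        ≤ ε + 2 * ‖y‖ / η ^ 2 * (2 * (ε / A) * ∑ l ∈ Finset.range m, ‖z l‖) := by
      calc ∑ j, c j * ‖ρ (g j) y - y‖
          ≤ ∑ j, c j * (ε + 2 * ‖y‖ / η ^ 2
              * ∑ l ∈ Finset.range m, ‖ρ (g j) (z l) - z l‖ ^ 2) :=
            Finset.sum_le_sum fun j _ => mul_le_mul_of_nonneg_left (hpt j) (hc0 j)
        _ = ε + 2 * ‖y‖ / η ^ 2 *
              ∑ l ∈ Finset.range m, ∑ j, c j * ‖ρ (g j) (z l) - z l‖ ^ 2 := by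
            simp only [mul_add, Finset.sum_add_distrib]
            rw [← Finset.sum_mul, hc1, one_mul, Finset.sum_comm, Finset.mul_sum]
            congr 1
            refine Finset.sum_congr rfl fun j _ => ?_
            rw [Finset.mul_sum, Finset.mul_sum, Finset.mul_sum]
            refine Finset.sum_congr rfl fun l _ => ?_
            ring
        _ ≤ _ := by
            have h10 : ∑ l ∈ Finset.range m, ∑ j, c j * ‖ρ (g j) (z l) - z l‖ ^ 2
                ≤ 2 * (ε / A) * ∑ l ∈ Finset.range m, ‖z l‖ := by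
              rw [Finset.mul_sum]
              exact Finset.sum_le_sum fun l hl => hsq l (Finset.mem_range.1 hl)
            gcongr
    have hlast : ‖∑ j, c j • ρ (g j) y - y‖ ≤ ∑ j, c j * ‖ρ (g j) y - y‖ := by
      have h11 : ∑ j, c j • ρ (g j) y - y = ∑ j, c j • (ρ (g j) y - y) := by
        simp only [smul_sub, Finset.sum_sub_distrib]
        rw [← Finset.sum_smul, hc1, one_smul]
      rw [h11]
      refine (norm_sum_le _ _).trans (Finset.sum_le_sum fun j _ => ?_)
      rw [norm_smul, Real.norm_of_nonneg (hc0 j)]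
    have htri : ‖P y - y‖ ≤ ‖P y - ∑ j, c j • ρ (g j) y‖ + ‖∑ j, c j • ρ (g j) y - y‖ := by
      have h12 : P y - y = (P y - ∑ j, c j • ρ (g j) y) + (∑ j, c j • ρ (g j) y - y) := by abel
      rw [h12]
      exact norm_add_le _ _
    have hfinal : ε / A + (ε + 2 * ‖y‖ / η ^ 2 * (2 * (ε / A) * ∑ l ∈ Finset.range m, ‖z l‖))
        = 2 * ε := by
      have h13 : ε / A * A = ε := div_mul_cancel₀ ε hA.ne'
      have h14 : ε / A * (1 + 2 * ‖y‖ / η ^ 2 * (2 * ∑ l ∈ Finset.range m, ‖z l‖)) = ε := h13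
      linear_combination h14
    linarith
  have h0 : ‖P y - y‖ ≤ 0 := by
    refine le_of_forall_pos_le_add fun ε hε => ?_
    have := key (ε / 2) (by positivity)
    linarith
  exact sub_eq_zero.1 (norm_le_zero_iff.1 h0)

end Abs

end MP_02d86d_gt
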