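import Pool.Agent.Work.MP_02d86d_gt.Str.Basic
import Pool.Agent.Work.MP_02d86d_gt.Str.Center
import Pool.Agent.Work.MP_02d86d_gt.Str.Clus
import Pool.Agent.Work.MP_02d86d_gt.Str.Fix

/-! The structure of random products of reflections. -/

set_option autoImplicit false

namespace MP_02d86d_gt

open Set Filter Topology Metric

variable {Γ : Type*} [Group Γ] {H : Type*} [NormedAddCommGroup H] [InnerProductSpace ℝ H]

theorem structure_abs [CompleteSpace H] [TopologicalSpace.SeparableSpace H]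
    {ρ : Γ →* (H ≃ₗᵢ[ℝ] H)} (hρ : SotCpt ρ) (r : ℕ → Γ) :
    ∃ (U : ℕ → Γ) (G : Subgroup Γ) (B : ℕ → H → H) (P : H → H),
      (∀ N x, Tendsto (fun k => ρ (U (N + k)) (Qs ρ r N k (ρ (U N)⁻¹ x))) atTop
        (𝓝 (B N x))) ∧
      (∀ N x, P (B N x) = B N x) ∧ (∀ x y, ‖P x - P y‖ ≤ ‖x - y‖) ∧
      (∀ g, g ∈ G ↔ ∀ x, ρ g (P x) = P x) ∧
      (∀ x, (∀ g ∈ G, ρ g x = x) → Tendsto (fun N => B N x) atTop (𝓝 x)) ∧
      (∀ (φ : ℕ → ℕ) (h : Γ), StrictMono φ →
        (∀ x, Tendsto (fun m => ρ (U (φ m) * r (φ m) * (U (φ m))⁻¹) x) atTop (𝓝 (ρ h x))) →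
        h ∈ G) := by
  obtain ⟨U, hU⟩ := exists_center hρ r
  have hB' : ∀ N x, ∃ y, Tendsto (fun k => ρ (U (N + k)) (Qs ρ r N k (ρ (U N)⁻¹ x))) atTop
      (𝓝 y) := fun N x => hU N (ρ (U N)⁻¹ x)
  choose B hB using hB'
  obtain ⟨φ₀, P, hφ₀, hP, hPB, hPP, hPlin, hPle, hPc⟩ := exists_cluster hρ r U B hB id
    strictMono_id
  have hsub : ∀ {Q : H → H}, (∀ (a : ℝ) (x y : H), Q (a • x + y) = a • Q x + Q y) →
      (∀ x, ‖Q x‖ ≤ ‖x‖) → ∀ x y, ‖Q x - Q y‖ ≤ ‖x - y‖ := by
    intro Q hlin hle x y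
    have h1 : Q x - Q y = Q (x - y) := by
      have h2 := hlin (-1) y x
      rw [neg_one_smul, neg_one_smul] at h2
      rw [show x - y = -y + x by abel, h2]
      abel
    rw [h1]
    exact hle _
  have hPs := hsub hPlin hPle
  -- a nonexpansive map fixing the values of `B` fixes the range of `P`
  have hfix : ∀ {Q : H → H}, (∀ x y, ‖Q x - Q y‖ ≤ ‖x - y‖) → (∀ N x, Q (B N x) = B N x) →
      ∀ x, Q (P x) = P x := by
    intro Q hQ hQB x
    have h1 : Tendsto (fun m => Q (B (φ₀ m) x)) atTop (𝓝 (Q (P x))) := by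
      rw [tendsto_iff_norm_sub_tendsto_zero]
      have h2 := tendsto_iff_norm_sub_tendsto_zero.1 (hP x)
      exact squeeze_zero (fun m => norm_nonneg _) (fun m => hQ _ _) h2
    have h3 : Tendsto (fun m => Q (B (φ₀ m) x)) atTop (𝓝 (P x)) := by
      simp only [hQB]
      exact hP x
    exact tendsto_nhds_unique h1 h3
  obtain ⟨G, hG⟩ : ∃ G : Subgroup Γ, ∀ g, g ∈ G ↔ ∀ x, ρ g (P x) = P x := by
    refine ⟨⟨⟨⟨{g | ∀ x, ρ g (P x) = P x}, ?_⟩, ?_⟩, ?_⟩, fun g => Iff.rfl⟩
    · intro a b ha hb x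
      rw [map_mul, LinearIsometryEquiv.coe_mul, Function.comp_apply, hb x, ha x]
    · intro x
      rw [map_one, LinearIsometryEquiv.coe_one, id_eq]
    · intro a ha x
      show ρ a⁻¹ (P x) = P x
      rw [map_inv, LinearIsometryEquiv.coe_inv, LinearIsometryEquiv.symm_apply_eq]
      exact (ha x).symm
  refine ⟨U, G, B, P, hB, hPB, hPs, hG, fun x hx => ?_, fun φ h hφ hh => ?_⟩
  · -- convergence on the fixed vectors
    have hPx : P x = x := fix_of_stab hρ hPP hPlin hPle hPc fun g hg => hx g ((hG g).2 hg)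
    refine tendsto_of_subseq_tendsto fun ns hns => ?_
    obtain ⟨ψ, hψ, hψ'⟩ := strictMono_subseq_of_tendsto_atTop hns
    obtain ⟨φ₁, P₁, hφ₁, hP₁, hP₁B, -, hlin₁, hle₁, -⟩ := exists_cluster hρ r U B hB _ hψ'
    have h1 : P₁ (P x) = P x := hfix (hsub hlin₁ hle₁) hP₁B x
    rw [hPx] at h1
    have h2 := hP₁ x
    rw [h1] at h2
    exact ⟨ψ ∘ φ₁, h2⟩
  · -- the limits of the reflections
    rw [hG]
    refine fun x => hfix (Q := fun x => ρ h x) (fun x y => ?_) (fun N x => ?_) x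
    · rw [← map_sub, LinearIsometryEquiv.norm_map]
    · -- `z k` is the orbit
      obtain ⟨z, hz⟩ : ∃ z : ℕ → H, ∀ k, z k = Qs ρ r N k (ρ (U N)⁻¹ x) := ⟨_, fun k => rfl⟩
      have hBz : Tendsto (fun k => ρ (U (N + k)) (z k)) atTop (𝓝 (B N x)) := by
        simp only [hz]
        exact hB N x
      have hloss : Tendsto (fun k => ‖z k - ρ (r (N + k)) (z k)‖) atTop (𝓝 0) := by
        have hs : Summable fun k => ‖z k - ρ (r (N + k)) (z k)‖ ^ 2 := by
          refine summable_of_sum_range_le (c := 4 * ‖ρ (U N)⁻¹ x‖ ^ 2)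
            (fun k => sq_nonneg _) fun m => ?_
          simp only [hz]
          exact Qs_loss ρ r N m _
        have h1 := hs.tendsto_atTop_zero
        have h2 : Tendsto (fun k => √(‖z k - ρ (r (N + k)) (z k)‖ ^ 2)) atTop (𝓝 √0) :=
          (Real.continuous_sqrt.tendsto 0).comp h1
        simp only [Real.sqrt_sq (norm_nonneg _), Real.sqrt_zero] at h2
        exact h2
      -- indices `φ m = N + κ m`
      have hφt : Tendsto (fun m => φ m - N) atTop atTop :=
        (tendsto_sub_atTop_nat N).comp hφ.tendsto_atTop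
      have hev : ∀ᶠ m in atTop, N + (φ m - N) = φ m := by
        filter_upwards [hφ.tendsto_atTop.eventually_ge_atTop N] with m hm
        omega
      have h1 : Tendsto (fun m => ρ (U (φ m)) (z (φ m - N))) atTop (𝓝 (B N x)) := by
        refine (hBz.comp hφt).congr' ?_
        filter_upwards [hev] with m hm
        simp only [Function.comp_apply, hm]
      have h2 : Tendsto (fun m => ρ (U (φ m)) (ρ (r (φ m)) (z (φ m - N)))) atTop
          (𝓝 (B N x)) := by
        have h3 : Tendsto (fun m => ρ (U (φ m)) (z (φ m - N)) -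
            ρ (U (φ m)) (ρ (r (φ m)) (z (φ m - N)))) atTop (𝓝 0) := by
          rw [tendsto_zero_iff_norm_tendsto_zero]
          refine (hloss.comp hφt).congr' ?_
          filter_upwards [hev] with m hm
          simp only [Function.comp_apply, hm]
          rw [← map_sub, LinearIsometryEquiv.norm_map]
        have h4 := h1.sub h3
        simpa using h4
      have h3 : Tendsto (fun m => ρ (U (φ m) * r (φ m) * (U (φ m))⁻¹)
          (ρ (U (φ m)) (z (φ m - N)))) atTop (𝓝 (ρ h (B N x))) := by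
        have h4 : Tendsto (fun m => ρ (U (φ m) * r (φ m) * (U (φ m))⁻¹)
            (ρ (U (φ m)) (z (φ m - N))) - ρ (U (φ m) * r (φ m) * (U (φ m))⁻¹) (B N x)) atTop
            (𝓝 0) := by
          rw [tendsto_zero_iff_norm_tendsto_zero]
          have h5 := tendsto_iff_norm_sub_tendsto_zero.1 h1
          refine h5.congr fun m => ?_
          rw [← map_sub, LinearIsometryEquiv.norm_map]
        have h6 := h4.add (hh (B N x))
        simpa using h6
      refine tendsto_nhds_unique h3 (h2.congr fun m => ?_)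
      have h4 : U (φ m) * r (φ m) = U (φ m) * r (φ m) * (U (φ m))⁻¹ * U (φ m) := by group
      have h5 : ∀ (a b : Γ) (v : H), ρ a (ρ b v) = ρ (a * b) v := fun a b v => by
        rw [map_mul, LinearIsometryEquiv.coe_mul, Function.comp_apply]
      rw [h5, h5, ← h4]

end MP_02d86d_gt
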