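import Pool.Agent.Work.MP_02d86d_gt.Str.DefH
import Pool.Agent.Work.MP_02d86d_gt.Dih.IsoVol

/-! The action of the orthogonal group on the weighted Hilbert space. -/

set_option autoImplicit false

namespace MP_02d86d_gt

open MeasureTheory Set Filter Topology Metric

variable {n : ℕ}

theorem act_continuous_w2 : Continuous (w2 : EuclideanSpace ℝ (Fin n) → ℝ) := by
  unfold w2
  refine Continuous.rpow_const (by fun_prop) fun ξ => Or.inl ?_
  have := norm_nonneg ξ
  positivity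

theorem act_w2_map (ψ : EuclideanSpace ℝ (Fin n) ≃ₗᵢ[ℝ] EuclideanSpace ℝ (Fin n))
    (ξ : EuclideanSpace ℝ (Fin n)) : w2 (ψ ξ) = w2 ξ := by
  unfold w2
  rw [LinearIsometryEquiv.norm_map]

instance act_locallyFinite (n : ℕ) : IsLocallyFiniteMeasure (mu2 n) :=
  IsLocallyFiniteMeasure.withDensity_ofReal act_continuous_w2

/-- linear isometries preserve the weighted measure -/
theorem act_mp (ψ : EuclideanSpace ℝ (Fin n) ≃ₗᵢ[ℝ] EuclideanSpace ℝ (Fin n)) :
    MeasurePreserving (ψ : EuclideanSpace ℝ (Fin n) → EuclideanSpace ℝ (Fin n)) (mu2 n)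
      (mu2 n) := by
  have hm : Measurable (ψ : EuclideanSpace ℝ (Fin n) → EuclideanSpace ℝ (Fin n)) :=
    ψ.continuous.measurable
  refine ⟨hm, ?_⟩
  ext s hs
  rw [Measure.map_apply hm hs]
  unfold mu2
  rw [withDensity_apply _ hs, withDensity_apply _ (hm hs)]
  have h := ψ.measurePreserving.setLIntegral_comp_preimage (f := fun ξ => ENNReal.ofReal (w2 ξ))
    hs (by
      exact ENNReal.measurable_ofReal.comp act_continuous_w2.measurable)
  rw [← h]
  refine lintegral_congr fun ξ => ?_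
  simp only [act_w2_map]

theorem act_congr {f f' : EuclideanSpace ℝ (Fin n) → EuclideanSpace ℝ (Fin n)}
    (hf : MeasurePreserving f (mu2 n) (mu2 n)) (hf' : MeasurePreserving f' (mu2 n) (mu2 n))
    (h : f = f') (v : HH n) :
    Lp.compMeasurePreserving f hf v = Lp.compMeasurePreserving f' hf' v := by
  subst h
  rfl

theorem act_comp {f f' f'' : EuclideanSpace ℝ (Fin n) → EuclideanSpace ℝ (Fin n)}
    (hf : MeasurePreserving f (mu2 n) (mu2 n)) (hf' : MeasurePreserving f' (mu2 n) (mu2 n))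
    (hf'' : MeasurePreserving f'' (mu2 n) (mu2 n)) (h : ∀ ξ, f (f' ξ) = f'' ξ) (v : HH n) :
    Lp.compMeasurePreserving f' hf' (Lp.compMeasurePreserving f hf v)
      = Lp.compMeasurePreserving f'' hf'' v := by
  rw [← Lp.compMeasurePreserving_comp_apply]
  exact act_congr _ _ (funext h) v

theorem act_comp_id {f f' : EuclideanSpace ℝ (Fin n) → EuclideanSpace ℝ (Fin n)}
    (hf : MeasurePreserving f (mu2 n) (mu2 n)) (hf' : MeasurePreserving f' (mu2 n) (mu2 n))
    (h : ∀ ξ, f (f' ξ) = ξ) (v : HH n) :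
    Lp.compMeasurePreserving f' hf' (Lp.compMeasurePreserving f hf v) = v := by
  rw [act_comp hf hf' (MeasurePreserving.id _) h]
  exact Lp.compMeasurePreserving_id_apply v

/-- the action of one isometry -/
noncomputable def actOne (g : EuclideanSpace ℝ (Fin n) ≃ₗᵢ[ℝ] EuclideanSpace ℝ (Fin n)) :
    HH n ≃ₗᵢ[ℝ] HH n where
  toFun v := Lp.compMeasurePreserving (g.symm : EuclideanSpace ℝ (Fin n) → _) (act_mp g.symm) v
  map_add' v w := by simp only [map_add]
  map_smul' a v := by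
    have h := (Lp.compMeasurePreservingₗ ℝ (E := ℂ) (p := 2)
      (g.symm : EuclideanSpace ℝ (Fin n) → _) (act_mp g.symm)).map_smul a v
    exact h
  invFun v := Lp.compMeasurePreserving (g : EuclideanSpace ℝ (Fin n) → _) (act_mp g) v
  left_inv v := act_comp_id _ _ (fun ξ => g.symm_apply_apply ξ) v
  right_inv v := act_comp_id _ _ (fun ξ => g.apply_symm_apply ξ) v
  norm_map' v := Lp.norm_compMeasurePreserving v (act_mp g.symm)

theorem actOne_apply (g : EuclideanSpace ℝ (Fin n) ≃ₗᵢ[ℝ] EuclideanSpace ℝ (Fin n)) (v : HH n) :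
    actOne g v = Lp.compMeasurePreserving (g.symm : EuclideanSpace ℝ (Fin n) → _)
      (act_mp g.symm) v := rfl

/-- uniform convergence on bounded sets gives strong convergence -/
theorem act_tendsto_of_unif {χ : ℕ → (EuclideanSpace ℝ (Fin n) ≃ₗᵢ[ℝ] EuclideanSpace ℝ (Fin n))}
    {η : EuclideanSpace ℝ (Fin n) ≃ₗᵢ[ℝ] EuclideanSpace ℝ (Fin n)} {δ : ℕ → ℝ}
    (hδ : Tendsto δ atTop (𝓝 0)) (h : ∀ i x, ‖χ i x - η x‖ ≤ δ i * ‖x‖) (v : HH n) :
    Tendsto (fun i => actOne (χ i) v) atTop (𝓝 (actOne η v)) := by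
  let f : ℕ → C(EuclideanSpace ℝ (Fin n), EuclideanSpace ℝ (Fin n)) := fun i =>
    ⟨(χ i).symm, (χ i).symm.continuous⟩
  let f0 : C(EuclideanSpace ℝ (Fin n), EuclideanSpace ℝ (Fin n)) := ⟨η.symm, η.symm.continuous⟩
  have hb : ∀ i x, ‖f i x - f0 x‖ ≤ δ i * ‖x‖ := by
    intro i x
    change ‖(χ i).symm x - η.symm x‖ ≤ δ i * ‖x‖
    have h1 : ‖(χ i).symm x - η.symm x‖ = ‖χ i (η.symm x) - η (η.symm x)‖ := by
      rw [← (χ i).norm_map ((χ i).symm x - η.symm x), map_sub, (χ i).apply_symm_apply,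
        η.apply_symm_apply, norm_sub_rev]
    rw [h1]
    refine (h i (η.symm x)).trans (le_of_eq ?_)
    rw [η.symm.norm_map]
  have hf : Tendsto f atTop (𝓝 f0) := by
    rw [ContinuousMap.tendsto_iff_forall_isCompact_tendstoUniformlyOn]
    intro K hK
    obtain ⟨r, hr⟩ := hK.isBounded.subset_closedBall (0 : EuclideanSpace ℝ (Fin n))
    rw [Metric.tendstoUniformlyOn_iff]
    intro ε hε
    have hd : Tendsto (fun i => |δ i| * |r|) atTop (𝓝 0) := by
      have := (hδ.abs).mul_const |r|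
      simpa using this
    filter_upwards [hd.eventually (gt_mem_nhds hε)] with i hi x hx
    rw [dist_comm, dist_eq_norm]
    refine lt_of_le_of_lt ((hb i x).trans ?_) hi
    have hx' : ‖x‖ ≤ |r| := (mem_closedBall_zero_iff.1 (hr hx)).trans (le_abs_self r)
    calc δ i * ‖x‖ ≤ |δ i| * ‖x‖ := by gcongr; exact le_abs_self _
      _ ≤ |δ i| * |r| := by gcongr
  have h2 := Filter.Tendsto.compMeasurePreservingLp (μ := mu2 n) (ν := mu2 n) (p := 2)
    (f := fun _ : ℕ => v) (f₀ := v) tendsto_const_nhds hf (fun i => act_mp (χ i).symm)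
    (act_mp η.symm) (by norm_num)
  exact h2

theorem exists_act (n : ℕ) : ∃ ρ : (EuclideanSpace ℝ (Fin n) ≃ₗᵢ[ℝ] EuclideanSpace ℝ (Fin n)) →*
      (HH n ≃ₗᵢ[ℝ] HH n),
    (∀ g (f : EuclideanSpace ℝ (Fin n) → ℂ), MemLp f 2 (mu2 n) →
      MemLp (fun ξ => f (g.symm ξ)) 2 (mu2 n) ∧ ρ g (toH f) = toH fun ξ => f (g.symm ξ)) ∧
    SotCpt ρ ∧
    ∀ (g : ℕ → (EuclideanSpace ℝ (Fin n) ≃ₗᵢ[ℝ] EuclideanSpace ℝ (Fin n)))
      (h : EuclideanSpace ℝ (Fin n) ≃ₗᵢ[ℝ] EuclideanSpace ℝ (Fin n)),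
      (∀ x, Tendsto (fun m => g m x) atTop (𝓝 (h x))) →
      ∀ v : HH n, Tendsto (fun m => ρ (g m) v) atTop (𝓝 (ρ h v)) := by
  let ρ : (EuclideanSpace ℝ (Fin n) ≃ₗᵢ[ℝ] EuclideanSpace ℝ (Fin n)) →*
      (HH n ≃ₗᵢ[ℝ] HH n) := MonoidHom.mk' actOne fun g h => by
    ext1 v
    change actOne (g * h) v = actOne g (actOne h v)
    rw [actOne_apply, actOne_apply, actOne_apply]
    exact (act_comp (act_mp h.symm) (act_mp g.symm) (act_mp (g * h).symm) (fun ξ => rfl) v).symm
  have hρ : ∀ g v, ρ g v = actOne g v := fun g v => rfl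
  refine ⟨ρ, ?_, ?_, ?_⟩
  · intro g f hf
    have h1 : MemLp (fun ξ => f (g.symm ξ)) 2 (mu2 n) :=
      hf.comp_measurePreserving (act_mp g.symm)
    refine ⟨h1, ?_⟩
    rw [hρ, actOne_apply]
    unfold toH
    rw [dif_pos hf, dif_pos h1]
    exact Lp.toLp_compMeasurePreserving hf (act_mp g.symm)
  · intro g
    obtain ⟨η, φ, hφ, δ, hδ, hd⟩ := exists_isom_subseq g
    exact ⟨φ, η, hφ, fun v => act_tendsto_of_unif hδ hd v⟩
  · intro g h hg v
    refine tendsto_of_subseq_tendsto fun ns hns => ?_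
    obtain ⟨η, φ, hφ, δ, hδ, hd⟩ := exists_isom_subseq fun i => g (ns i)
    refine ⟨φ, ?_⟩
    have h1 := act_tendsto_of_unif hδ hd v
    have h2 : η = h := by
      ext1 x
      have h3 : Tendsto (fun i => g (ns (φ i)) x) atTop (𝓝 (h x)) :=
        (hg x).comp (hns.comp hφ.tendsto_atTop)
      have h4 : Tendsto (fun i => g (ns (φ i)) x) atTop (𝓝 (η x)) := by
        rw [tendsto_iff_norm_sub_tendsto_zero]
        refine squeeze_zero (fun i => norm_nonneg _) (fun i => hd i x) ?_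
        have := hδ.mul_const ‖x‖
        simpa using this
      exact tendsto_nhds_unique h4 h3
    rw [← h2]
    exact h1

end MP_02d86d_gt
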