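import Pool.Agent.Work.MP_02d86d_gt.Str.DefH
import Mathlib.Analysis.Convex.TotallyBounded

/-! Elementary facts on products of means of isometries. -/

set_option autoImplicit false

namespace MP_02d86d_gt

open MeasureTheory Set Filter Topology Metric

section Abs

variable {Γ : Type*} [Group Γ] {H : Type*} [NormedAddCommGroup H] [InnerProductSpace ℝ H]

theorem avg_lin (ρ : Γ →* (H ≃ₗᵢ[ℝ] H)) (r : Γ) (a : ℝ) (x y : H) :
    avg ρ r (a • x + y) = a • avg ρ r x + avg ρ r y := by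
  unfold avg
  rw [map_add, map_smul]
  module

theorem norm_avg_le (ρ : Γ →* (H ≃ₗᵢ[ℝ] H)) (r : Γ) (x : H) : ‖avg ρ r x‖ ≤ ‖x‖ := by
  unfold avg
  rw [norm_smul, Real.norm_eq_abs, abs_of_pos (by norm_num : (0 : ℝ) < 1 / 2)]
  have h := norm_add_le x (ρ r x)
  rw [(ρ r).norm_map] at h
  linarith

/-- the loss of one mean -/
theorem norm_avg_sq (ρ : Γ →* (H ≃ₗᵢ[ℝ] H)) (r : Γ) (x : H) :
    ‖avg ρ r x‖ ^ 2 = ‖x‖ ^ 2 - ‖x - ρ r x‖ ^ 2 / 4 := by
  unfold avg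
  rw [norm_smul, Real.norm_eq_abs, abs_of_pos (by norm_num : (0 : ℝ) < 1 / 2)]
  have h := parallelogram_law_with_norm ℝ x (ρ r x)
  rw [(ρ r).norm_map] at h
  linarith

theorem Qs_lin (ρ : Γ →* (H ≃ₗᵢ[ℝ] H)) (r : ℕ → Γ) (N k : ℕ) (a : ℝ) (x y : H) :
    Qs ρ r N k (a • x + y) = a • Qs ρ r N k x + Qs ρ r N k y := by
  induction k with
  | zero => rfl
  | succ k ih =>
    change avg ρ (r (N + k)) (Qs ρ r N k (a • x + y)) = _
    rw [ih, avg_lin]
    rfl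

theorem Qs_sub (ρ : Γ →* (H ≃ₗᵢ[ℝ] H)) (r : ℕ → Γ) (N k : ℕ) (x y : H) :
    Qs ρ r N k (x - y) = Qs ρ r N k x - Qs ρ r N k y := by
  have h := Qs_lin ρ r N k (-1) y x
  have e1 : (-1 : ℝ) • y + x = x - y := by rw [neg_one_smul]; abel
  have e2 : (-1 : ℝ) • Qs ρ r N k y + Qs ρ r N k x = Qs ρ r N k x - Qs ρ r N k y := by
    rw [neg_one_smul]; abel
  rwa [e1, e2] at h

theorem norm_Qs_le (ρ : Γ →* (H ≃ₗᵢ[ℝ] H)) (r : ℕ → Γ) (N k : ℕ) (x : H) :
    ‖Qs ρ r N k x‖ ≤ ‖x‖ := by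
  induction k with
  | zero => exact le_rfl
  | succ k ih => exact (norm_avg_le ρ (r (N + k)) _).trans ih

theorem Qs_add_time (ρ : Γ →* (H ≃ₗᵢ[ℝ] H)) (r : ℕ → Γ) (N k l : ℕ) (x : H) :
    Qs ρ r N (k + l) x = Qs ρ r (N + k) l (Qs ρ r N k x) := by
  induction l with
  | zero => rfl
  | succ l ih =>
    change avg ρ (r (N + (k + l))) (Qs ρ r N (k + l) x) =
      avg ρ (r (N + k + l)) (Qs ρ r (N + k) l (Qs ρ r N k x))
    rw [ih, add_assoc]

theorem Qs_loss_eq (ρ : Γ →* (H ≃ₗᵢ[ℝ] H)) (r : ℕ → Γ) (N m : ℕ) (x : H) :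
    ∑ k ∈ Finset.range m, ‖Qs ρ r N k x - ρ (r (N + k)) (Qs ρ r N k x)‖ ^ 2 =
      4 * (‖x‖ ^ 2 - ‖Qs ρ r N m x‖ ^ 2) := by
  induction m with
  | zero =>
    rw [Finset.sum_range_zero]
    change (0 : ℝ) = 4 * (‖x‖ ^ 2 - ‖x‖ ^ 2)
    ring
  | succ m ih =>
    rw [Finset.sum_range_succ, ih]
    have h := norm_avg_sq ρ (r (N + m)) (Qs ρ r N m x)
    change ‖Qs ρ r N (m + 1) x‖ ^ 2 = _ at h
    rw [h]
    ring

/-- the total loss -/
theorem Qs_loss (ρ : Γ →* (H ≃ₗᵢ[ℝ] H)) (r : ℕ → Γ) (N m : ℕ) (x : H) :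
    ∑ k ∈ Finset.range m, ‖Qs ρ r N k x - ρ (r (N + k)) (Qs ρ r N k x)‖ ^ 2 ≤ 4 * ‖x‖ ^ 2 := by
  rw [Qs_loss_eq]
  have h := sq_nonneg ‖Qs ρ r N m x‖
  linarith

/-- the products are convex combinations of elements of the group -/
theorem Qs_comb (ρ : Γ →* (H ≃ₗᵢ[ℝ] H)) (r : ℕ → Γ) (N k : ℕ) :
    ∃ (m : ℕ) (g : Fin m → Γ) (c : Fin m → ℝ), (∀ j, 0 ≤ c j) ∧ ∑ j, c j = 1 ∧
      ∀ x : H, Qs ρ r N k x = ∑ j, c j • ρ (g j) x := by
  induction k with
  | zero =>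
    refine ⟨1, fun _ => 1, fun _ => 1, fun _ => zero_le_one, by simp, fun x => ?_⟩
    simp [Qs]
  | succ k ih =>
    obtain ⟨m, g, c, h0, h1, h2⟩ := ih
    refine ⟨m + m, Fin.append g fun j => r (N + k) * g j,
      Fin.append (fun j => c j / 2) fun j => c j / 2, ?_, ?_, fun x => ?_⟩
    · intro j
      refine Fin.addCases (fun i => ?_) (fun i => ?_) j
      · rw [Fin.append_left]
        exact div_nonneg (h0 i) zero_le_two
      · rw [Fin.append_right]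
        exact div_nonneg (h0 i) zero_le_two
    · rw [Fin.sum_univ_add]
      simp only [Fin.append_left, Fin.append_right]
      rw [← Finset.sum_div, h1]
      norm_num
    · rw [Fin.sum_univ_add]
      simp only [Fin.append_left, Fin.append_right]
      change avg ρ (r (N + k)) (Qs ρ r N k x) = _
      unfold avg
      rw [h2 x, map_sum, smul_add, Finset.smul_sum, Finset.smul_sum]
      congr 1
      · refine Finset.sum_congr rfl fun j _ => ?_
        rw [smul_smul]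
        congr 1
        ring
      · refine Finset.sum_congr rfl fun j _ => ?_
        rw [map_smul, smul_smul, map_mul]
        congr 1
        ring

theorem isCompact_orbit {ρ : Γ →* (H ≃ₗᵢ[ℝ] H)} (hρ : SotCpt ρ) (x : H) :
    IsCompact (range fun g : Γ => ρ g x) := by
  refine IsSeqCompact.isCompact ?_
  intro u hu
  choose g hg using hu
  obtain ⟨φ, h, hφ, hl⟩ := hρ g
  refine ⟨ρ h x, ⟨h, rfl⟩, φ, hφ, ?_⟩
  have := hl x
  refine this.congr fun m => ?_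
  exact hg (φ m)

/-- closed convex hulls of orbits are compact -/
theorem exists_compact [CompleteSpace H] {ρ : Γ →* (H ≃ₗᵢ[ℝ] H)} (hρ : SotCpt ρ) (x : H) :
    ∃ C : Set H, IsCompact C ∧ Convex ℝ C ∧ ∀ g : Γ, ρ g x ∈ C := by
  have h1 := (isCompact_orbit hρ x).totallyBounded.convexHull.closure
  refine ⟨closure (convexHull ℝ (range fun g : Γ => ρ g x)),
    h1.isCompact_of_isClosed isClosed_closure, (convex_convexHull ℝ _).closure, fun g => ?_⟩
  exact subset_closure (subset_convexHull ℝ _ ⟨g, rfl⟩)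

end Abs

end MP_02d86d_gt
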