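import Pool.Agent.Work.MP_02d86d_gt.NDim.SmoothN
import Pool.Agent.Work.MP_02d86d_gt.Comp

/-! Definitions for the structure theorem: random products of reflections in a Hilbert space. -/

set_option autoImplicit false

namespace MP_02d86d_gt

open MeasureTheory Set Filter Topology Metric

section Abs

variable {Γ : Type*} [Group Γ] {H : Type*} [NormedAddCommGroup H] [InnerProductSpace ℝ H]

/-- The mean of the identity and of `ρ r`. -/
noncomputable def avg (ρ : Γ →* (H ≃ₗᵢ[ℝ] H)) (r : Γ) (x : H) : H := (1 / 2 : ℝ) • (x + ρ r x)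

/-- The product of `k` means, starting at `N`. -/
noncomputable def Qs (ρ : Γ →* (H ≃ₗᵢ[ℝ] H)) (r : ℕ → Γ) (N : ℕ) : ℕ → H → H
  | 0, x => x
  | k + 1, x => avg ρ (r (N + k)) (Qs ρ r N k x)

/-- Sequential compactness of the group in the strong topology. -/
def SotCpt (ρ : Γ →* (H ≃ₗᵢ[ℝ] H)) : Prop :=
  ∀ g : ℕ → Γ, ∃ (φ : ℕ → ℕ) (h : Γ), StrictMono φ ∧
    ∀ x, Tendsto (fun m => ρ (g (φ m)) x) atTop (𝓝 (ρ h x))

end Abs

variable {n : ℕ}

/-- A weight with fourth moments. -/
noncomputable def w2 (ξ : EuclideanSpace ℝ (Fin n)) : ℝ := (1 + ‖ξ‖) ^ (-((n : ℝ) + 5))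

/-- The weighted measure. -/
noncomputable def mu2 (n : ℕ) : Measure (EuclideanSpace ℝ (Fin n)) :=
  volume.withDensity fun ξ => ENNReal.ofReal (w2 ξ)

/-- The Hilbert space. -/
abbrev HH (n : ℕ) : Type := Lp ℂ 2 (mu2 n)

open Classical in
/-- The vector of a function. -/
noncomputable def toH (f : EuclideanSpace ℝ (Fin n) → ℂ) : HH n :=
  if h : MemLp f 2 (mu2 n) then h.toLp f else 0

/-- The vector of a body, by its Fourier transform. -/
noncomputable def vec (K : Set (EuclideanSpace ℝ (Fin n))) : HH n := toH (Th K)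

/-- The vector of a body, by its support function. -/
noncomputable def svec (K : Set (EuclideanSpace ℝ (Fin n))) : HH n :=
  toH fun ξ => (hsn K ξ : ℂ)

/-- The Minkowski symmetral. -/
def mk (u : EuclideanSpace ℝ (Fin n)) (M : Set (EuclideanSpace ℝ (Fin n))) :
    Set (EuclideanSpace ℝ (Fin n)) :=
  {z | ∃ x ∈ M, ∃ y ∈ M, z = (1 / 2 : ℝ) • (x + rho u y)}

end MP_02d86d_gt
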