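import Pool.Agent.Work.MP_02d86d_gt.Comp

/-! Convergence of bodies from convergence of vectors. -/

set_option autoImplicit false

namespace MP_02d86d_gt

open MeasureTheory Set Filter Topology Metric

variable {n : ℕ}

theorem emb_tendsto {X : Type*} [TopologicalSpace X] [T2Space X]
    (Φ : Set (EuclideanSpace ℝ (Fin n)) → X) {R : ℝ} (good : Set (EuclideanSpace ℝ (Fin n)) → Prop)
    (hgood : ∀ (K : ℕ → Set (EuclideanSpace ℝ (Fin n))) (L : Set (EuclideanSpace ℝ (Fin n))),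
      (∀ i, good (K i)) → (∀ i, (K i).Nonempty) → L.Nonempty → (∀ i, IsCompact (K i)) →
      IsCompact L → (∀ i, Convex ℝ (K i)) → Convex ℝ L → (∀ i, K i ⊆ closedBall 0 R) →
      Tendsto (fun i => hausdorffDist (K i) L) atTop (𝓝 0) → good L)
    (hcont : ∀ (K : ℕ → Set (EuclideanSpace ℝ (Fin n))) (L : Set (EuclideanSpace ℝ (Fin n))),
      (∀ i, (K i).Nonempty) → L.Nonempty → (∀ i, IsCompact (K i)) → IsCompact L →
      (∀ i, Convex ℝ (K i)) → Convex ℝ L → (∀ i, K i ⊆ closedBall 0 R) →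
      Tendsto (fun i => hausdorffDist (K i) L) atTop (𝓝 0) →
      Tendsto (fun i => Φ (K i)) atTop (𝓝 (Φ L)))
    (hinj : ∀ K L : Set (EuclideanSpace ℝ (Fin n)), IsCompact K → IsCompact L → Convex ℝ K →
      Convex ℝ L → K.Nonempty → L.Nonempty → good K → good L → Φ K = Φ L → K = L)
    (K : ℕ → Set (EuclideanSpace ℝ (Fin n))) (hg : ∀ i, good (K i)) (hK : ∀ i, (K i).Nonempty)
    (cK : ∀ i, IsCompact (K i)) (vK : ∀ i, Convex ℝ (K i)) (bK : ∀ i, K i ⊆ closedBall 0 R)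
    {ℓ : X} (hlim : Tendsto (fun i => Φ (K i)) atTop (𝓝 ℓ)) :
    ∃ L : Set (EuclideanSpace ℝ (Fin n)), IsCompact L ∧ Convex ℝ L ∧ L.Nonempty ∧
      L ⊆ closedBall 0 R ∧ good L ∧ Φ L = ℓ ∧
      Tendsto (fun i => hausdorffDist (K i) L) atTop (𝓝 0) := by
  have key : ∀ ns : ℕ → ℕ, Tendsto ns atTop atTop → ∃ (L : Set (EuclideanSpace ℝ (Fin n)))
      (φ : ℕ → ℕ), IsCompact L ∧ Convex ℝ L ∧ L.Nonempty ∧ L ⊆ closedBall 0 R ∧ good L ∧
      Φ L = ℓ ∧ Tendsto (fun i => hausdorffDist (K (ns (φ i))) L) atTop (𝓝 0) := by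
    intro ns hns
    obtain ⟨L, φ, hφ, cL, vL, nL, bL, hL⟩ := blaschke (fun i => K (ns i)) (fun i => cK _)
      (fun i => vK _) (fun i => hK _) fun i => bK _
    have h1 := hcont (fun i => K (ns (φ i))) L (fun i => hK _) nL (fun i => cK _) cL
      (fun i => vK _) vL (fun i => bK _) hL
    have h2 : Tendsto (fun i => Φ (K (ns (φ i)))) atTop (𝓝 ℓ) :=
      hlim.comp (hns.comp hφ.tendsto_atTop)
    exact ⟨L, φ, cL, vL, nL, bL, hgood (fun i => K (ns (φ i))) L (fun i => hg _)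
      (fun i => hK _) nL (fun i => cK _) cL (fun i => vK _) vL (fun i => bK _) hL,
      tendsto_nhds_unique h1 h2, hL⟩
  obtain ⟨L, φ, cL, vL, nL, bL, gL, eL, -⟩ := key id tendsto_id
  refine ⟨L, cL, vL, nL, bL, gL, eL, ?_⟩
  refine tendsto_of_subseq_tendsto fun ns hns => ?_
  obtain ⟨L', φ', cL', vL', nL', bL', gL', eL', hL'⟩ := key ns hns
  have h1 : L' = L := hinj L' L cL' cL vL' vL nL' nL gL' gL (by rw [eL', eL])
  exact ⟨φ', by rw [← h1]; exact hL'⟩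

end MP_02d86d_gt
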