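import Pool.Agent.Work.MP_02d86d_gt.Str.Vec
import Pool.Agent.Work.MP_02d86d_gt.Dih.Step

/-! Support vectors and Minkowski symmetrals. -/

set_option autoImplicit false

namespace MP_02d86d_gt

open MeasureTheory Set Filter Topology Metric

variable {n : ℕ}

theorem memLp_lin : MemLp (fun ξ : EuclideanSpace ℝ (Fin n) => 1 + ‖ξ‖) 2 (mu2 n) := by
  have hc : Continuous fun ξ : EuclideanSpace ℝ (Fin n) => 1 + ‖ξ‖ := by fun_prop
  rw [memLp_two_iff_integrable_sq hc.aestronglyMeasurable, integrable_mu2_iff]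
  have h1 := integrable_one_add_norm (E := EuclideanSpace ℝ (Fin n)) (μ := volume)
    (r := (n : ℝ) + 3) (by rw [finrank_euclideanSpace_fin]; linarith)
  refine h1.congr (Eventually.of_forall fun ξ => ?_)
  have h2 : 0 < 1 + ‖ξ‖ := by positivity
  unfold w2
  simp only
  rw [← Real.rpow_natCast, ← Real.rpow_add h2]
  congr 1
  push_cast
  ring

/-- functions of linear growth -/
theorem memLp_growth {f : EuclideanSpace ℝ (Fin n) → ℂ} (hf : Continuous f) {C : ℝ}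
    (h : ∀ ξ, ‖f ξ‖ ≤ C * ‖1 + ‖ξ‖‖) : MemLp f 2 (mu2 n) :=
  memLp_lin.of_le_mul hf.aestronglyMeasurable (Eventually.of_forall h)

theorem hsn_abs {M : Set (EuclideanSpace ℝ (Fin n))} (cM : IsCompact M) (hM : M.Nonempty)
    {R : ℝ} (hR : ∀ y ∈ M, ‖y‖ ≤ R) (ξ : EuclideanSpace ℝ (Fin n)) :
    |hsn M ξ| ≤ R * ‖ξ‖ := by
  obtain ⟨y, hy, h⟩ := exists_hsn cM hM ξ
  rw [← h]
  exact (abs_real_inner_le_norm _ _).trans (mul_le_mul_of_nonneg_right (hR y hy) (norm_nonneg _))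

theorem exists_bd {M : Set (EuclideanSpace ℝ (Fin n))} (cM : IsCompact M) :
    ∃ R : ℝ, 0 ≤ R ∧ ∀ y ∈ M, ‖y‖ ≤ R := by
  obtain ⟨R, hR⟩ := cM.isBounded.exists_norm_le
  exact ⟨max R 0, le_max_right _ _, fun y hy => (hR y hy).trans (le_max_left _ _)⟩

theorem continuous_hsn {M : Set (EuclideanSpace ℝ (Fin n))} (cM : IsCompact M)
    (hM : M.Nonempty) : Continuous (hsn M) := by
  obtain ⟨R, hR0, hR⟩ := exists_bd cM
  refine (LipschitzWith.of_le_add_mul ⟨R, hR0⟩ fun w w' => ?_).continuous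
  rw [dist_eq_norm]
  exact hsn_lip cM hM hR w w'

theorem memLp_hsn {M : Set (EuclideanSpace ℝ (Fin n))} (cM : IsCompact M) (hM : M.Nonempty) :
    MemLp (fun ξ => (hsn M ξ : ℂ)) 2 (mu2 n) := by
  obtain ⟨R, hR0, hR⟩ := exists_bd cM
  refine memLp_growth (C := R) (Complex.continuous_ofReal.comp (continuous_hsn cM hM)) fun ξ => ?_
  rw [Complex.norm_real, Real.norm_eq_abs, Real.norm_eq_abs]
  refine (hsn_abs cM hM hR ξ).trans (mul_le_mul_of_nonneg_left ?_ hR0)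
  rw [abs_of_pos (by positivity)]
  linarith

theorem hsn_image {M : Set (EuclideanSpace ℝ (Fin n))}
    (g : EuclideanSpace ℝ (Fin n) ≃ₗᵢ[ℝ] EuclideanSpace ℝ (Fin n))
    (ξ : EuclideanSpace ℝ (Fin n)) : hsn (g '' M) ξ = hsn M (g.symm ξ) := by
  unfold hsn
  rw [image_image]
  congr 1
  refine image_congr fun y _ => ?_
  rw [inner_lie]

theorem mk_eq_image (u : EuclideanSpace ℝ (Fin n)) (M : Set (EuclideanSpace ℝ (Fin n))) :
    mk u M = (fun p : EuclideanSpace ℝ (Fin n) × EuclideanSpace ℝ (Fin n) =>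
      (1 / 2 : ℝ) • (p.1 + rho u p.2)) '' (M ×ˢ M) := by
  ext z
  constructor
  · rintro ⟨x, hx, y, hy, rfl⟩
    exact ⟨(x, y), ⟨hx, hy⟩, rfl⟩
  · rintro ⟨⟨x, y⟩, ⟨hx, hy⟩, rfl⟩
    exact ⟨x, hx, y, hy, rfl⟩

theorem mk_props {u : EuclideanSpace ℝ (Fin n)} {M : Set (EuclideanSpace ℝ (Fin n))}
    (cM : IsCompact M) (vM : Convex ℝ M) (hM : M.Nonempty) {R : ℝ} (bM : M ⊆ closedBall 0 R) :
    IsCompact (mk u M) ∧ Convex ℝ (mk u M) ∧ (mk u M).Nonempty ∧ mk u M ⊆ closedBall 0 R := by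
  refine ⟨?_, ?_, ?_, ?_⟩
  · rw [mk_eq_image]
    refine (cM.prod cM).image ?_
    have h := (rho u).continuous
    fun_prop
  · rintro _ ⟨x, hx, y, hy, rfl⟩ _ ⟨x', hx', y', hy', rfl⟩ a b ha hb hab
    refine ⟨a • x + b • x', vM hx hx' ha hb hab, a • y + b • y', vM hy hy' ha hb hab, ?_⟩
    rw [map_add, map_smul, map_smul]
    module
  · obtain ⟨x, hx⟩ := hM
    exact ⟨_, x, hx, x, hx, rfl⟩
  · rintro _ ⟨x, hx, y, hy, rfl⟩
    have h1 := bM hx
    have h2 := bM hy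
    rw [mem_closedBall_zero_iff] at h1 h2 ⊢
    rw [norm_smul, Real.norm_eq_abs, abs_of_pos (by norm_num)]
    have h3 := norm_add_le x (rho u y)
    rw [(rho u).norm_map] at h3
    linarith

theorem st_subset_mk {u : EuclideanSpace ℝ (Fin n)} (hu : ‖u‖ = 1)
    {K M : Set (EuclideanSpace ℝ (Fin n))} (hK : IsCompact K) (hc : Convex ℝ K) (h : K ⊆ M) :
    st u K ⊆ mk u M := by
  intro x hx
  obtain ⟨p, hp, q, hq, e⟩ := st_half hu hK hc hx
  exact ⟨p, h hp, q, h hq, e⟩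

theorem hsn_mk {u : EuclideanSpace ℝ (Fin n)} {M : Set (EuclideanSpace ℝ (Fin n))}
    (cM : IsCompact M) (hM : M.Nonempty) (ξ : EuclideanSpace ℝ (Fin n)) :
    hsn (mk u M) ξ = (1 / 2 : ℝ) * (hsn M ξ + hsn (rho u '' M) ξ) := by
  have c1 : IsCompact (mk u M) := by
    rw [mk_eq_image]
    refine (cM.prod cM).image ?_
    have h := (rho u).continuous
    fun_prop
  have n1 : (mk u M).Nonempty := by
    obtain ⟨x, hx⟩ := hM
    exact ⟨_, x, hx, x, hx, rfl⟩
  have c2 : IsCompact (rho u '' M) := cM.image (rho u).continuous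
  apply le_antisymm
  · obtain ⟨z, ⟨x, hx, y, hy, rfl⟩, h⟩ := exists_hsn c1 n1 ξ
    rw [← h, inner_smul_left, inner_add_left]
    have h1 := inner_le_hsn cM hx ξ
    have h2 := inner_le_hsn c2 (mem_image_of_mem (rho u) hy) ξ
    simp only [conj_trivial]
    linarith
  · obtain ⟨x, hx, h1⟩ := exists_hsn cM hM ξ
    obtain ⟨_, ⟨y, hy, rfl⟩, h2⟩ := exists_hsn c2 (hM.image _) ξ
    have h3 := inner_le_hsn c1 (y := (1 / 2 : ℝ) • (x + rho u y)) ⟨x, hx, y, hy, rfl⟩ ξ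
    rw [inner_smul_left, inner_add_left, h1, h2] at h3
    simpa using h3

theorem toH_eq {f : EuclideanSpace ℝ (Fin n) → ℂ} (h : MemLp f 2 (mu2 n)) :
    toH f = h.toLp f := by
  unfold toH
  rw [dif_pos h]

theorem svec_mk {u : EuclideanSpace ℝ (Fin n)} {M : Set (EuclideanSpace ℝ (Fin n))}
    (cM : IsCompact M) (hM : M.Nonempty) :
    svec (mk u M) = (1 / 2 : ℝ) • (svec M + svec (rho u '' M)) := by
  have c2 : IsCompact (rho u '' M) := cM.image (rho u).continuous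
  have h1 := memLp_hsn cM hM
  have h2 := memLp_hsn c2 (hM.image _)
  have e : (fun ξ => (hsn (mk u M) ξ : ℂ)) =
      (1 / 2 : ℝ) • ((fun ξ => (hsn M ξ : ℂ)) + fun ξ => (hsn (rho u '' M) ξ : ℂ)) := by
    funext ξ
    simp only [Pi.smul_apply, Pi.add_apply, hsn_mk cM hM ξ, Complex.real_smul]
    push_cast
    ring
  have h3 : MemLp ((1 / 2 : ℝ) • ((fun ξ => (hsn M ξ : ℂ)) +
      fun ξ => (hsn (rho u '' M) ξ : ℂ))) 2 (mu2 n) := (h1.add h2).const_smul _
  unfold svec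
  rw [e, toH_eq h3, toH_eq h1, toH_eq h2]
  rfl

theorem svec_inj {K L : Set (EuclideanSpace ℝ (Fin n))} (cK : IsCompact K) (cL : IsCompact L)
    (vK : Convex ℝ K) (vL : Convex ℝ L) (hK : K.Nonempty) (hL : L.Nonempty)
    (h : svec K = svec L) : K = L := by
  have h1 := memLp_hsn cK hK
  have h2 := memLp_hsn cL hL
  unfold svec at h
  rw [toH_eq h1, toH_eq h2, MemLp.toLp_eq_toLp_iff] at h
  have hac : (volume : Measure (EuclideanSpace ℝ (Fin n))) ≪ mu2 n :=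
    withDensity_absolutelyContinuous' continuous_w2.measurable.ennreal_ofReal.aemeasurable
      (Eventually.of_forall fun ξ => (ENNReal.ofReal_pos.2 (w2_pos ξ)).ne')
  have h3 := hac.ae_le h
  have c1 := Complex.continuous_ofReal.comp (continuous_hsn cK hK)
  have c2 := Complex.continuous_ofReal.comp (continuous_hsn cL hL)
  have h4 := (Continuous.ae_eq_iff_eq volume c1 c2).1 h3
  have h5 : ∀ ξ, hsn K ξ = hsn L ξ := fun ξ => Complex.ofReal_injective (congrFun h4 ξ)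
  apply Subset.antisymm
  · intro x hx
    refine mem_of_hsn cL vL hL fun w _ => ?_
    rw [← h5]
    exact inner_le_hsn cK hx w
  · intro x hx
    refine mem_of_hsn cK vK hK fun w _ => ?_
    rw [h5]
    exact inner_le_hsn cL hx w

theorem hsn_sub_le {K L : Set (EuclideanSpace ℝ (Fin n))} (cK : IsCompact K)
    (cL : IsCompact L) (hK : K.Nonempty) (hL : L.Nonempty) (ξ : EuclideanSpace ℝ (Fin n)) :
    hsn K ξ ≤ hsn L ξ + hausdorffDist K L * ‖ξ‖ := by
  obtain ⟨y, hy, h⟩ := exists_hsn cK hK ξ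
  rw [← h]
  obtain ⟨z, hz, hyz⟩ := cL.exists_infDist_eq_dist hL y
  have h1 : dist y z ≤ hausdorffDist K L := by
    rw [← hyz]
    exact infDist_le_hausdorffDist_of_mem hy (hd_ne_top hK hL cK.isBounded cL.isBounded)
  have h2 : inner ℝ y ξ = inner ℝ z ξ + inner ℝ (y - z) ξ := by
    rw [inner_sub_left]
    ring
  have h3 : inner ℝ (y - z) ξ ≤ hausdorffDist K L * ‖ξ‖ := by
    rw [dist_eq_norm] at h1
    exact (real_inner_le_norm _ _).trans (mul_le_mul_of_nonneg_right h1 (norm_nonneg _))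
  have h4 := inner_le_hsn cL hz ξ
  linarith

theorem norm_svec_sub_le {K L : Set (EuclideanSpace ℝ (Fin n))} (cK : IsCompact K)
    (cL : IsCompact L) (hK : K.Nonempty) (hL : L.Nonempty) :
    ‖svec K - svec L‖ ≤ hausdorffDist K L * ‖(memLp_lin (n := n)).toLp _‖ := by
  have h1 := memLp_hsn cK hK
  have h2 := memLp_hsn cL hL
  unfold svec
  rw [toH_eq h1, toH_eq h2]
  refine Lp.norm_le_mul_norm_of_ae_le_mul ?_
  have e1 := h1.coeFn_toLp
  have e2 := h2.coeFn_toLp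
  have e3 := (memLp_lin (n := n)).coeFn_toLp
  have e4 := Lp.coeFn_sub (h1.toLp _) (h2.toLp _)
  filter_upwards [e1, e2, e3, e4] with ξ f1 f2 f3 f4
  rw [f4, f3, Pi.sub_apply, f1, f2, ← Complex.ofReal_sub, Complex.norm_real, Real.norm_eq_abs,
    Real.norm_eq_abs]
  have h3 := hsn_sub_le cK cL hK hL ξ
  have h4 := hsn_sub_le cL cK hL hK ξ
  rw [hausdorffDist_comm] at h4
  have h5 : 0 ≤ hausdorffDist K L := hausdorffDist_nonneg
  rw [abs_of_pos (show (0 : ℝ) < 1 + ‖ξ‖ by positivity), abs_le]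
  constructor <;> nlinarith [norm_nonneg ξ]

theorem tendsto_svec {K : ℕ → Set (EuclideanSpace ℝ (Fin n))}
    {L : Set (EuclideanSpace ℝ (Fin n))} (hK : ∀ i, (K i).Nonempty)
    (hL : L.Nonempty) (cK : ∀ i, IsCompact (K i)) (cL : IsCompact L)
    (h : Tendsto (fun i => hausdorffDist (K i) L) atTop (𝓝 0)) :
    Tendsto (fun i => svec (K i)) atTop (𝓝 (svec L)) := by
  rw [tendsto_iff_norm_sub_tendsto_zero]
  refine squeeze_zero (fun i => norm_nonneg _)
    (fun i => norm_svec_sub_le (cK i) cL (hK i) hL) ?_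
  have h1 := h.mul_const ‖(memLp_lin (n := n)).toLp _‖
  rwa [zero_mul] at h1

end MP_02d86d_gt
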