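import Pool.Agent.Work.MP_02d86d_gt.Str.DefH
import Pool.Agent.Work.MP_02d86d_gt.Main

/-! The vector of a body, by its Fourier transform. -/

set_option autoImplicit false

namespace MP_02d86d_gt

open MeasureTheory Set Filter Topology Metric

variable {n : ℕ}

/-! ### the weight -/

theorem w2_pos (ξ : EuclideanSpace ℝ (Fin n)) : 0 < w2 ξ :=
  Real.rpow_pos_of_pos (by positivity) _

theorem continuous_w2 : Continuous (w2 : EuclideanSpace ℝ (Fin n) → ℝ) := by
  unfold w2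
  refine Continuous.rpow_const (by fun_prop) fun ξ => Or.inl ?_
  have := norm_nonneg ξ
  positivity

theorem w2_le_wt (ξ : EuclideanSpace ℝ (Fin n)) : w2 ξ ≤ wt ξ := by
  have := norm_nonneg ξ
  exact Real.rpow_le_rpow_of_exponent_le (by linarith) (by linarith)

theorem integrable_w2 : Integrable (w2 : EuclideanSpace ℝ (Fin n) → ℝ) := by
  unfold w2
  refine integrable_one_add_norm ?_
  simp only [finrank_euclideanSpace, Fintype.card_fin]
  linarith

theorem integrable_four_w2 :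
    Integrable fun ξ : EuclideanSpace ℝ (Fin n) => ‖ξ‖ ^ 4 * w2 ξ := by
  have h1 : Integrable fun ξ : EuclideanSpace ℝ (Fin n) => (1 + ‖ξ‖) ^ (-((n : ℝ) + 1)) :=
    integrable_one_add_norm (by simp)
  refine h1.mono' ((continuous_norm.pow 4).mul continuous_w2).aestronglyMeasurable
    (Eventually.of_forall fun ξ => ?_)
  have h0 := norm_nonneg ξ
  have h2 : (0 : ℝ) < 1 + ‖ξ‖ := by positivity
  rw [Real.norm_eq_abs, abs_of_nonneg (mul_nonneg (by positivity) (w2_pos ξ).le)]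
  have h3 : (1 + ‖ξ‖) ^ (-((n : ℝ) + 1)) = (1 + ‖ξ‖) ^ (4 : ℕ) * w2 ξ := by
    unfold w2
    rw [← Real.rpow_natCast, ← Real.rpow_add h2]
    congr 1
    push_cast
    ring
  rw [h3]
  refine mul_le_mul_of_nonneg_right ?_ (w2_pos ξ).le
  exact pow_le_pow_left₀ h0 (by linarith) 4

theorem measurable_w2 : Measurable fun ξ : EuclideanSpace ℝ (Fin n) => ENNReal.ofReal (w2 ξ) :=
  continuous_w2.measurable.ennreal_ofReal

instance : IsFiniteMeasure (mu2 n) :=
  isFiniteMeasure_withDensity_ofReal integrable_w2.2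

theorem integrable_mu2_iff {f : EuclideanSpace ℝ (Fin n) → ℝ} :
    Integrable f (mu2 n) ↔ Integrable fun ξ => f ξ * w2 ξ := by
  unfold mu2
  rw [integrable_withDensity_iff measurable_w2
    (Eventually.of_forall fun _ => ENNReal.ofReal_lt_top)]
  simp only [ENNReal.toReal_ofReal (w2_pos _).le]

theorem integral_mu2 (f : EuclideanSpace ℝ (Fin n) → ℝ) :
    ∫ ξ, f ξ ∂(mu2 n) = ∫ ξ, f ξ * w2 ξ := by
  unfold mu2
  rw [integral_withDensity_eq_integral_toReal_smul measurable_w2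
    (Eventually.of_forall fun _ => ENNReal.ofReal_lt_top)]
  simp only [ENNReal.toReal_ofReal (w2_pos _).le, smul_eq_mul, mul_comm]

theorem ae_mu2_iff {p : EuclideanSpace ℝ (Fin n) → Prop} :
    (∀ᵐ ξ ∂(mu2 n), p ξ) ↔ ∀ᵐ ξ, p ξ := by
  unfold mu2
  rw [ae_withDensity_iff measurable_w2]
  refine eventually_congr (Eventually.of_forall fun ξ => ?_)
  have : ENNReal.ofReal (w2 ξ) ≠ 0 := by
    rw [Ne, ENNReal.ofReal_eq_zero, not_le]
    exact w2_pos ξ
  simp [this]

theorem norm_sq_toLp {f : EuclideanSpace ℝ (Fin n) → ℂ} (hf : MemLp f 2 (mu2 n)) :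
    ‖hf.toLp f‖ ^ 2 = ∫ ξ, ‖f ξ‖ ^ 2 * w2 ξ := by
  have h0 : 0 ≤ ∫ ξ, ‖f ξ‖ ^ 2 ∂(mu2 n) := integral_nonneg fun _ => by positivity
  rw [Lp.norm_toLp, hf.eLpNorm_eq_integral_rpow_norm (by simp) (by simp),
    ENNReal.toReal_ofReal (Real.rpow_nonneg (integral_nonneg fun _ => by positivity) _)]
  simp only [ENNReal.toReal_ofNat, Real.rpow_ofNat]
  rw [← Real.rpow_natCast, ← Real.rpow_mul h0, integral_mu2]
  norm_num

/-! ### the vectors -/

theorem memLp_Th {K : Set (EuclideanSpace ℝ (Fin n))} (hK : IsCompact K) :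
    MemLp (Th K) 2 (mu2 n) :=
  MemLp.of_bound (continuous_Th hK).aestronglyMeasurable _
    (Eventually.of_forall fun ξ => norm_Th_le hK ξ)

theorem vec_eq {K : Set (EuclideanSpace ℝ (Fin n))} (hK : IsCompact K) :
    vec K = (memLp_Th hK).toLp (Th K) := by
  unfold vec toH
  rw [dif_pos (memLp_Th hK)]

theorem memLp_sq : MemLp (fun ξ : EuclideanSpace ℝ (Fin n) => ((‖ξ‖ ^ 2 / 2 : ℝ) : ℂ)) 2
    (mu2 n) := by
  rw [memLp_two_iff_integrable_sq_norm (by fun_prop), integrable_mu2_iff]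
  refine (integrable_four_w2.div_const 4).congr (Eventually.of_forall fun ξ => ?_)
  simp only [Complex.norm_real, Real.norm_eq_abs, sq_abs]
  ring

theorem vec_st (n : ℕ) : ∃ C : ℝ, 0 ≤ C ∧ ∀ (u : EuclideanSpace ℝ (Fin n))
    (K : Set (EuclideanSpace ℝ (Fin n))), ‖u‖ = 1 → IsCompact K → Convex ℝ K →
    ‖vec (st u K) - (1 / 2 : ℝ) • (vec K + vec (rho u '' K))‖ ≤ C * Dlt u K := by
  refine ⟨‖(memLp_sq (n := n)).toLp _‖, norm_nonneg _, fun u K hu hK hc => ?_⟩
  have hch := chords hu hK hc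
  have hS := isCompact_st hu hK hc
  have hRK : IsCompact (rho u '' K) := hK.image (rho u).continuous
  have hD := dlt_nonneg hu hch hK hS
  have h1 : ‖vec (st u K) - (1 / 2 : ℝ) • (vec K + vec (rho u '' K))‖ ≤
      ‖Dlt u K • (memLp_sq (n := n)).toLp _‖ := by
    rw [vec_eq hS, vec_eq hK, vec_eq hRK]
    refine Lp.norm_le_norm_of_ae_le ?_
    filter_upwards [Lp.coeFn_sub ((memLp_Th hS).toLp (Th (st u K)))
        ((1 / 2 : ℝ) • ((memLp_Th hK).toLp (Th K) + (memLp_Th hRK).toLp (Th (rho u '' K)))),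
      Lp.coeFn_smul (1 / 2 : ℝ) ((memLp_Th hK).toLp (Th K) +
        (memLp_Th hRK).toLp (Th (rho u '' K))),
      Lp.coeFn_add ((memLp_Th hK).toLp (Th K)) ((memLp_Th hRK).toLp (Th (rho u '' K))),
      Lp.coeFn_smul (Dlt u K) ((memLp_sq (n := n)).toLp _),
      (memLp_Th hS).coeFn_toLp, (memLp_Th hK).coeFn_toLp, (memLp_Th hRK).coeFn_toLp,
      (memLp_sq (n := n)).coeFn_toLp] with ξ a1 a2 a3 a4 a5 a6 a7 a8
    rw [a1, a4]
    simp only [Pi.sub_apply, Pi.smul_apply]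
    rw [a2]
    simp only [Pi.smul_apply]
    rw [a3]
    simp only [Pi.add_apply]
    rw [a5, a6, a7, a8, norm_smul, Real.norm_eq_abs, abs_of_nonneg hD, Complex.norm_real,
      Real.norm_eq_abs, abs_of_nonneg (by positivity), mul_comm (Dlt u K)]
    have h2 : (1 / 2 : ℝ) • (Th K ξ + Th (rho u '' K) ξ) =
        (Th K ξ + Th (rho u '' K) ξ) / 2 := by
      rw [Complex.real_smul]
      push_cast
      ring
    rw [h2]
    exact est2 hu hch hK hS ξ
  rwa [norm_smul, Real.norm_eq_abs, abs_of_nonneg hD, mul_comm] at h1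

theorem vec_inj {K L : Set (EuclideanSpace ℝ (Fin n))} (cK : IsCompact K) (cL : IsCompact L)
    (vK : Convex ℝ K) (vL : Convex ℝ L) (hK : volume K ≠ 0) (hL : volume L ≠ 0)
    (h : vec K = vec L) : K = L := by
  rw [vec_eq cK, vec_eq cL, MemLp.toLp_eq_toLp_iff] at h
  have h1 : Th K =ᵐ[volume] Th L := ae_mu2_iff.1 h
  have h2 := (Continuous.ae_eq_iff_eq volume (continuous_Th cK) (continuous_Th cL)).1 h1
  refine eq_of_F cK cL vK vL hK hL ?_
  simp [F, h2]

theorem tendsto_vec {K : ℕ → Set (EuclideanSpace ℝ (Fin n))}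
    {L : Set (EuclideanSpace ℝ (Fin n))} {R : ℝ} (hK : ∀ i, (K i).Nonempty)
    (hL : L.Nonempty) (cK : ∀ i, IsCompact (K i)) (cL : IsCompact L)
    (vK : ∀ i, Convex ℝ (K i)) (vL : Convex ℝ L) (bK : ∀ i, K i ⊆ closedBall 0 R)
    (h : Tendsto (fun i => hausdorffDist (K i) L) atTop (𝓝 0)) :
    Tendsto (fun i => vec (K i)) atTop (𝓝 (vec L)) := by
  have h1 := tendsto_F hK hL cK cL vK vL bK cL h
  rw [F_self] at h1
  have h2 : ∀ i, ‖vec (K i) - vec L‖ ^ 2 ≤ F (K i) L := by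
    intro i
    rw [vec_eq (cK i), vec_eq cL, ← MemLp.toLp_sub, norm_sq_toLp]
    have h3 := integrable_F (cK i) cL
    refine integral_mono_of_nonneg (Eventually.of_forall fun ξ =>
      mul_nonneg (by positivity) (w2_pos ξ).le) h3 (Eventually.of_forall fun ξ => ?_)
    exact mul_le_mul_of_nonneg_left (w2_le_wt ξ) (by positivity)
  have h3 : Tendsto (fun i => ‖vec (K i) - vec L‖ ^ 2) atTop (𝓝 0) :=
    squeeze_zero (fun i => by positivity) h2 h1
  rw [tendsto_iff_norm_sub_tendsto_zero]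
  have h4 := (Real.continuous_sqrt.tendsto 0).comp h3
  rw [Real.sqrt_zero] at h4
  refine h4.congr fun i => ?_
  simp only [Function.comp_apply]
  exact Real.sqrt_sq (norm_nonneg _)

end MP_02d86d_gt
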