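import Pool.Agent.Work.MP_02d86d_gt.Str.AbsMain
import Pool.Agent.Work.MP_02d86d_gt.Str.Act
import Pool.Agent.Work.MP_02d86d_gt.Str.Vec
import Pool.Agent.Work.MP_02d86d_gt.Str.SVec
import Pool.Agent.Work.MP_02d86d_gt.Main
import Pool.Agent.Work.MP_02d86d_gt.Str.Emb
import Pool.Agent.Work.MP_02d86d_gt.B.Squeeze
import Pool.Agent.Work.MP_02d86d_gt.B.Mono

/-! The structure of the shape limits. -/

set_option autoImplicit false

namespace MP_02d86d_gt

open MeasureTheory Set Filter Topology Metric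

variable {n : ℕ}

theorem vec_image {ρ : (EuclideanSpace ℝ (Fin n) ≃ₗᵢ[ℝ] EuclideanSpace ℝ (Fin n)) →*
      (HH n ≃ₗᵢ[ℝ] HH n)}
    (hρ : ∀ g (f : EuclideanSpace ℝ (Fin n) → ℂ), MemLp f 2 (mu2 n) →
      MemLp (fun ξ => f (g.symm ξ)) 2 (mu2 n) ∧ ρ g (toH f) = toH fun ξ => f (g.symm ξ))
    {K : Set (EuclideanSpace ℝ (Fin n))} (hK : IsCompact K)
    (g : EuclideanSpace ℝ (Fin n) ≃ₗᵢ[ℝ] EuclideanSpace ℝ (Fin n)) :
    vec (g '' K) = ρ g (vec K) := by
  unfold vec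
  rw [(hρ g (Th K) (memLp_Th hK)).2]
  congr 1
  funext ξ
  rw [← Th_image g K (g.symm ξ), LinearIsometryEquiv.apply_symm_apply]

theorem svec_image {ρ : (EuclideanSpace ℝ (Fin n) ≃ₗᵢ[ℝ] EuclideanSpace ℝ (Fin n)) →*
      (HH n ≃ₗᵢ[ℝ] HH n)}
    (hρ : ∀ g (f : EuclideanSpace ℝ (Fin n) → ℂ), MemLp f 2 (mu2 n) →
      MemLp (fun ξ => f (g.symm ξ)) 2 (mu2 n) ∧ ρ g (toH f) = toH fun ξ => f (g.symm ξ))
    {M : Set (EuclideanSpace ℝ (Fin n))} (cM : IsCompact M) (nM : M.Nonempty)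
    (g : EuclideanSpace ℝ (Fin n) ≃ₗᵢ[ℝ] EuclideanSpace ℝ (Fin n)) :
    svec (g '' M) = ρ g (svec M) := by
  unfold svec
  rw [(hρ g _ (memLp_hsn cM nM)).2]
  congr 1
  funext ξ
  rw [hsn_image]

theorem convex_lie {M : Set (EuclideanSpace ℝ (Fin n))} (hc : Convex ℝ M)
    (A : EuclideanSpace ℝ (Fin n) ≃ₗᵢ[ℝ] EuclideanSpace ℝ (Fin n)) :
    Convex ℝ (A '' M) :=
  hc.linear_image A.toLinearEquiv.toLinearMap

/-- The error of the linear approximation. -/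
theorem vec_err {ρ : (EuclideanSpace ℝ (Fin n) ≃ₗᵢ[ℝ] EuclideanSpace ℝ (Fin n)) →*
      (HH n ≃ₗᵢ[ℝ] HH n)}
    (hρ : ∀ g (f : EuclideanSpace ℝ (Fin n) → ℂ), MemLp f 2 (mu2 n) →
      MemLp (fun ξ => f (g.symm ξ)) 2 (mu2 n) ∧ ρ g (toH f) = toH fun ξ => f (g.symm ξ))
    {C : ℝ} (hC : ∀ (u : EuclideanSpace ℝ (Fin n))
      (K : Set (EuclideanSpace ℝ (Fin n))), ‖u‖ = 1 → IsCompact K → Convex ℝ K →
      ‖vec (st u K) - (1 / 2 : ℝ) • (vec K + vec (rho u '' K))‖ ≤ C * Dlt u K)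
    {u : ℕ → EuclideanSpace ℝ (Fin n)} {j : ℕ} {R : ℝ}
    {K : ℕ → Set (EuclideanSpace ℝ (Fin n))} (h : Iter R (fun i => u (j + i)) K) (m k : ℕ) :
    ‖vec (K (m + k)) - Qs ρ (fun i => rho (u i)) (j + m) k (vec (K m))‖ ≤
      C * (inertia (K m) - inertia (K (m + k))) := by
  induction k with
  | zero => simp [Qs]
  | succ k ih =>
    obtain ⟨q, hq⟩ : ∃ q, q = Qs ρ (fun i => rho (u i)) (j + m) k (vec (K m)) := ⟨_, rfl⟩
    have h1 : Qs ρ (fun i => rho (u i)) (j + m) (k + 1) (vec (K m)) =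
        avg ρ (rho (u (j + m + k))) q := by rw [hq]; rfl
    rw [← hq] at ih
    rw [h1]
    have h2 : K (m + (k + 1)) = st (u (j + m + k)) (K (m + k)) := by
      have := h.step (m + k)
      rw [show m + k + 1 = m + (k + 1) by ring, show j + (m + k) = j + m + k by ring] at this
      exact this
    have hu : ‖u (j + m + k)‖ = 1 := by
      have := h.hu (m + k)
      rwa [show j + (m + k) = j + m + k by ring] at this
    have h3 := hC (u (j + m + k)) (K (m + k)) hu (h.cpt _) (h.cvx _)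
    rw [← h2, vec_image hρ (h.cpt _)] at h3
    have h4 : Dlt (u (j + m + k)) (K (m + k)) =
        inertia (K (m + k)) - inertia (K (m + (k + 1))) := by
      have := h.dlt (m + k)
      rw [show m + k + 1 = m + (k + 1) by ring, show j + (m + k) = j + m + k by ring] at this
      exact this
    rw [h4] at h3
    have h5 : (1 / 2 : ℝ) • (vec (K (m + k)) + ρ (rho (u (j + m + k))) (vec (K (m + k)))) -
        avg ρ (rho (u (j + m + k))) q = avg ρ (rho (u (j + m + k))) (vec (K (m + k)) - q) := by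
      unfold avg
      rw [map_sub]
      module
    have h6 := norm_avg_le ρ (rho (u (j + m + k))) (vec (K (m + k)) - q)
    rw [← h5] at h6
    calc ‖vec (K (m + (k + 1))) - avg ρ (rho (u (j + m + k))) q‖
        = ‖(vec (K (m + (k + 1))) -
            (1 / 2 : ℝ) • (vec (K (m + k)) + ρ (rho (u (j + m + k))) (vec (K (m + k))))) +
          ((1 / 2 : ℝ) • (vec (K (m + k)) + ρ (rho (u (j + m + k))) (vec (K (m + k)))) -
            avg ρ (rho (u (j + m + k))) q)‖ := by congr 1; abel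
      _ ≤ C * (inertia (K (m + k)) - inertia (K (m + (k + 1)))) +
          C * (inertia (K m) - inertia (K (m + k))) :=
          (norm_add_le _ _).trans (add_le_add h3 (h6.trans ih))
      _ = C * (inertia (K m) - inertia (K (m + (k + 1)))) := by ring

/-- Convergence of the vectors. -/
theorem vec_limit {ρ : (EuclideanSpace ℝ (Fin n) ≃ₗᵢ[ℝ] EuclideanSpace ℝ (Fin n)) →*
      (HH n ≃ₗᵢ[ℝ] HH n)}
    (hρ : ∀ g (f : EuclideanSpace ℝ (Fin n) → ℂ), MemLp f 2 (mu2 n) →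
      MemLp (fun ξ => f (g.symm ξ)) 2 (mu2 n) ∧ ρ g (toH f) = toH fun ξ => f (g.symm ξ))
    {C : ℝ} (hC0 : 0 ≤ C) (hC : ∀ (u : EuclideanSpace ℝ (Fin n))
      (K : Set (EuclideanSpace ℝ (Fin n))), ‖u‖ = 1 → IsCompact K → Convex ℝ K →
      ‖vec (st u K) - (1 / 2 : ℝ) • (vec K + vec (rho u '' K))‖ ≤ C * Dlt u K)
    {u : ℕ → EuclideanSpace ℝ (Fin n)}
    {U : ℕ → (EuclideanSpace ℝ (Fin n) ≃ₗᵢ[ℝ] EuclideanSpace ℝ (Fin n))}
    {B : ℕ → HH n → HH n} {P : HH n → HH n}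
    (hB : ∀ N x, Tendsto (fun k => ρ (U (N + k)) (Qs ρ (fun i => rho (u i)) N k
      (ρ (U N)⁻¹ x))) atTop (𝓝 (B N x)))
    (hPB : ∀ N x, P (B N x) = B N x) (hP : ∀ x y, ‖P x - P y‖ ≤ ‖x - y‖)
    {j : ℕ} {R : ℝ}
    {K : ℕ → Set (EuclideanSpace ℝ (Fin n))} (h : Iter R (fun i => u (j + i)) K) :
    ∃ ℓ : HH n, P ℓ = ℓ ∧ Tendsto (fun i => vec (U (j + i) '' K i)) atTop (𝓝 ℓ) := by
  obtain ⟨I, hI⟩ := h.inertia_tendsto
  -- the inertia decreases
  have hmono : Antitone fun i => inertia (K i) := by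
    refine antitone_nat_of_succ_le fun i => ?_
    have h1 := h.dlt_nonneg i
    rw [h.dlt i] at h1
    linarith
  have hIle : ∀ i, I ≤ inertia (K i) := fun i => hmono.le_of_tendsto hI i
  obtain ⟨τ, hτ⟩ : ∃ τ : ℕ → ℝ, ∀ m, τ m = C * (inertia (K m) - I) := ⟨_, fun m => rfl⟩
  have hτ0 : Tendsto τ atTop (𝓝 0) := by
    have h1 : Tendsto (fun m => C * (inertia (K m) - I)) atTop (𝓝 (C * (I - I))) :=
      (hI.sub_const I).const_mul C
    rw [sub_self, mul_zero] at h1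
    exact h1.congr fun m => (hτ m).symm
  -- the approximations
  have happ : ∀ m k, ‖vec (U (j + (m + k)) '' K (m + k)) -
      ρ (U (j + m + k)) (Qs ρ (fun i => rho (u i)) (j + m) k (vec (K m)))‖ ≤ τ m := by
    intro m k
    rw [vec_image hρ (h.cpt _), show j + (m + k) = j + m + k by ring, ← map_sub,
      LinearIsometryEquiv.norm_map, hτ]
    refine (vec_err hρ hC h m k).trans ?_
    have := hIle (m + k)
    exact mul_le_mul_of_nonneg_left (by linarith) hC0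
  have hy : ∀ m, ∃ y : HH n, P y = y ∧
      Tendsto (fun k => ρ (U (j + m + k)) (Qs ρ (fun i => rho (u i)) (j + m) k (vec (K m))))
        atTop (𝓝 y) := by
    intro m
    refine ⟨B (j + m) (ρ (U (j + m)) (vec (K m))), hPB _ _, ?_⟩
    have h1 := hB (j + m) (ρ (U (j + m)) (vec (K m)))
    have h2 : ρ (U (j + m))⁻¹ (ρ (U (j + m)) (vec (K m))) = vec (K m) := by
      rw [map_inv, LinearIsometryEquiv.coe_inv, LinearIsometryEquiv.symm_apply_apply]
    rw [h2] at h1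
    exact h1
  choose y hyP hy using hy
  have hclose : ∀ m, ∀ᶠ i in atTop, ‖vec (U (j + i) '' K i) - y m‖ ≤ τ m + τ m + 1 / (m + 1) := by
    intro m
    have h0 : 0 ≤ τ m := by
      rw [hτ]
      have := hIle m
      exact mul_nonneg hC0 (by linarith)
    have h1 : ∀ᶠ k in atTop, ‖ρ (U (j + m + k)) (Qs ρ (fun i => rho (u i)) (j + m) k
        (vec (K m))) - y m‖ < 1 / (m + 1) :=
      (tendsto_iff_norm_sub_tendsto_zero.1 (hy m)).eventually (gt_mem_nhds (by positivity))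
    obtain ⟨k₀, hk₀⟩ := eventually_atTop.1 h1
    filter_upwards [eventually_ge_atTop (m + k₀)] with i hi
    obtain ⟨k, rfl⟩ : ∃ k, i = m + k := ⟨i - m, by omega⟩
    have h2 := hk₀ k (by omega)
    have h3 := happ m k
    calc ‖vec (U (j + (m + k)) '' K (m + k)) - y m‖
        = ‖(vec (U (j + (m + k)) '' K (m + k)) -
            ρ (U (j + m + k)) (Qs ρ (fun i => rho (u i)) (j + m) k (vec (K m)))) +
            (ρ (U (j + m + k)) (Qs ρ (fun i => rho (u i)) (j + m) k (vec (K m))) - y m)‖ := by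
          congr 1; abel
      _ ≤ τ m + 1 / (m + 1) := (norm_add_le _ _).trans (add_le_add h3 h2.le)
      _ ≤ τ m + τ m + 1 / (m + 1) := by linarith
  have hlim0 : Tendsto (fun m : ℕ => τ m + τ m + 1 / ((m : ℝ) + 1)) atTop (𝓝 0) := by
    have h1 := (hτ0.add hτ0).add tendsto_one_div_add_atTop_nhds_zero_nat
    simpa using h1
  have hcau : CauchySeq fun i => vec (U (j + i) '' K i) := by
    rw [Metric.cauchySeq_iff']
    intro ε hε
    obtain ⟨m, hm⟩ := (hlim0.eventually (gt_mem_nhds (by linarith : (0 : ℝ) < ε / 2))).exists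
    obtain ⟨N, hN⟩ := eventually_atTop.1 (hclose m)
    refine ⟨N, fun i hi => ?_⟩
    have h1 := hN i hi
    have h2 := hN N le_rfl
    rw [dist_eq_norm]
    calc ‖vec (U (j + i) '' K i) - vec (U (j + N) '' K N)‖
        = ‖(vec (U (j + i) '' K i) - y m) - (vec (U (j + N) '' K N) - y m)‖ := by
          congr 1; abel
      _ ≤ ‖vec (U (j + i) '' K i) - y m‖ + ‖vec (U (j + N) '' K N) - y m‖ := norm_sub_le _ _
      _ < ε := by linarith
  obtain ⟨ℓ, hℓ⟩ := cauchySeq_tendsto_of_complete hcau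
  refine ⟨ℓ, ?_, hℓ⟩
  have hℓy : ∀ m, ‖ℓ - y m‖ ≤ τ m + τ m + 1 / ((m : ℝ) + 1) := fun m =>
    le_of_tendsto (hℓ.sub_const (y m)).norm (hclose m)
  have h1 : ∀ m : ℕ, ‖P ℓ - ℓ‖ ≤ 2 * (τ m + τ m + 1 / ((m : ℝ) + 1)) := by
    intro m
    calc ‖P ℓ - ℓ‖ = ‖(P ℓ - P (y m)) - (ℓ - y m)‖ := by
          rw [hyP]
          congr 1
          abel
      _ ≤ ‖P ℓ - P (y m)‖ + ‖ℓ - y m‖ := norm_sub_le _ _
      _ ≤ 2 * (τ m + τ m + 1 / ((m : ℝ) + 1)) := by
          have := hP ℓ (y m)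
          have := hℓy m
          linarith
  have h2 : ‖P ℓ - ℓ‖ ≤ 2 * 0 := ge_of_tendsto' (hlim0.const_mul 2) h1
  rw [mul_zero, norm_le_zero_iff, sub_eq_zero] at h2
  exact h2

end MP_02d86d_gt
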